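import Pool.Agent.Lib.GBC.G.Defs

/-!
Module G.DedP of GBC. A Dedekind domain `R` contained in a valuation ring `V` of its field of fractions.

PROOF. `place_frac`: `x = a / b` (`IsFractionRing.div_surjective`), `b ≠ 0`. `J = (a, b)`, a nonzero ideal
which divides `(b)` (`Ideal.dvd_iff_le`), so `J * J' = (b)`. For `s ∈ J'`: `s a ∈ J' J = (b)`, so
`s a = b c`, `x s = c`. It is enough that some `s ∈ J'` has `V.valuation s = 1`. Otherwise all have value
`< 1` (all elements of `R` have value `≤ 1`), and all elements of `J` have value `≤ v b` (`v a ≤ v b`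
because `x ∈ V`; `Ideal.mem_span_pair`), so all elements of `J * J'`
have value `< v b` (`Submodule.mul_induction_on`, `Valuation.map_add_lt`; `b ≠ 0`), a contradiction for `b`.
`place_approx`: `x = a / s` as above. `P = {s | v s < 1}` is a prime ideal of `R`
(`Ideal.comap` of the maximal ideal), nonzero: if `P = 0` then every nonzero element of `R` has value `1`, so
does every nonzero element of `K`, and `V = ⊤`. So `P` is maximal (`Ring.DimensionLEOne.maximalOfPrime`)
and there is `u ∈ R` with `s u - 1 ∈ P`; take `a u`: `x - a u = x (1 - s u)`.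
`mem_pow_iff`: `→`: the elements of `P` have value `≤ v ϖ` (value `< 1`: a multiple of `ϖ` in `V`,
`Irreducible.maximalIdeal_eq`), then induction on `n` (`pow_succ`, `Submodule.mul_induction_on`). `←`:
`ϖ = a₀ / s₀` with `v s₀ = 1`, so `v a₀ = v ϖ`, `a₀ ∈ P`; `a / a₀ ^ n ∈ V` is `b / s`, `v s = 1`, so
`a s = a₀ ^ n b ∈ P ^ n` and `s ∉ P`: `Ideal.IsPrime.mul_mem_pow` (`P` is prime).
-/

set_option autoImplicit false

open Polynomial

namespace Pool.Agent.GBC

open Pool.Agent.BSDP Pool.Agent.BSDFF Pool.Agent.HYP

variable {R K : Type} [CommRing R] [IsDedekindDomain R] [Field K] [Algebra R K] [IsFractionRing R K]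
  (V : ValuationSubring K) (h : ∀ a : R, algebraMap R K a ∈ V)

include h

private theorem DedP_le (r : R) : V.valuation (algebraMap R K r) ≤ 1 :=
  (V.valuation_le_one_iff _).2 (h r)

private def DedP_P : Ideal R where
  carrier := {r | V.valuation (algebraMap R K r) < 1}
  add_mem' := by
    intro a b ha hb
    simp only [Set.mem_setOf_eq] at ha hb ⊢
    rw [map_add]
    exact V.valuation.map_add_lt ha hb
  zero_mem' := by
    simp only [Set.mem_setOf_eq, map_zero]
    exact zero_lt_one
  smul_mem' := by
    intro c x hx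
    simp only [Set.mem_setOf_eq, smul_eq_mul, map_mul] at hx ⊢
    refine lt_of_le_of_lt (mul_le_mul_left (DedP_le V h c) _) ?_
    rw [one_mul]
    exact hx

private theorem DedP_prime {P : Ideal R}
    (hP : ∀ a, a ∈ P ↔ V.valuation (algebraMap R K a) < 1) : P.IsPrime := by
  rw [Ideal.isPrime_iff]
  constructor
  · intro htop
    have h1 : (1 : R) ∈ P := by rw [htop]; trivial
    rw [hP, map_one, map_one] at h1
    exact lt_irrefl _ h1
  · intro a b hab
    rw [hP, hP]
    rw [hP, map_mul, map_mul] at hab
    by_contra hno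
    push Not at hno
    have h1 : V.valuation (algebraMap R K a) = 1 := le_antisymm (DedP_le V h a) hno.1
    have h2 : V.valuation (algebraMap R K b) = 1 := le_antisymm (DedP_le V h b) hno.2
    rw [h1, h2, one_mul] at hab
    exact lt_irrefl _ hab

theorem place_frac {x : K} (hx : x ∈ V) :
    ∃ a s : R, V.valuation (algebraMap R K s) = 1 ∧ x * algebraMap R K s = algebraMap R K a := by
  obtain ⟨a, b, hb, rfl⟩ := IsFractionRing.div_surjective (A := R) x
  have hb0 : b ≠ 0 := nonZeroDivisors.ne_zero hb
  have hbK : algebraMap R K b ≠ 0 := by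
    intro h0
    exact hb0 ((map_eq_zero_iff _ (IsFractionRing.injective R K)).1 h0)
  have hvb : V.valuation (algebraMap R K b) ≠ 0 := (V.valuation.ne_zero_iff).2 hbK
  have hle : Ideal.span {b} ≤ Ideal.span {a, b} := by
    apply Ideal.span_mono
    intro y hy
    rw [Set.mem_singleton_iff] at hy
    rw [hy]
    simp
  obtain ⟨J', hJ⟩ := Ideal.dvd_iff_le.2 hle
  by_contra hno
  push Not at hno
  have hab : V.valuation (algebraMap R K a) ≤ V.valuation (algebraMap R K b) := by
    have h1 := (V.valuation_le_one_iff _).2 hx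
    have h2 : algebraMap R K a = algebraMap R K a / algebraMap R K b * algebraMap R K b := by
      field_simp
    calc V.valuation (algebraMap R K a)
        = V.valuation (algebraMap R K a / algebraMap R K b) * V.valuation (algebraMap R K b) := by
          rw [← map_mul, ← h2]
      _ ≤ 1 * V.valuation (algebraMap R K b) := mul_le_mul_left h1 _
      _ = V.valuation (algebraMap R K b) := one_mul _
  have hJ1 : ∀ t ∈ Ideal.span {a, b}, V.valuation (algebraMap R K t) ≤
      V.valuation (algebraMap R K b) := by
    intro t ht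
    obtain ⟨u, w, rfl⟩ := Ideal.mem_span_pair.1 ht
    rw [map_add, map_mul, map_mul]
    apply V.valuation.map_add_le
    · rw [map_mul]
      calc _ ≤ 1 * V.valuation (algebraMap R K a) := mul_le_mul_left (DedP_le V h u) _
        _ ≤ _ := by rw [one_mul]; exact hab
    · rw [map_mul]
      calc _ ≤ 1 * V.valuation (algebraMap R K b) := mul_le_mul_left (DedP_le V h w) _
        _ = _ := one_mul _
  have hJ2 : ∀ s ∈ J', V.valuation (algebraMap R K s) < 1 := by
    intro s hs
    refine lt_of_le_of_ne (DedP_le V h s) ?_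
    intro h1
    have h2 : a * s ∈ Ideal.span {b} := by
      rw [hJ]
      exact Ideal.mul_mem_mul (Ideal.subset_span (by simp)) hs
    obtain ⟨c, hc⟩ := Ideal.mem_span_singleton.1 h2
    refine hno c s h1 ?_
    rw [div_mul_eq_mul_div, ← map_mul, hc, map_mul]
    field_simp
  have hb1 : b ∈ Ideal.span {a, b} * J' := by
    rw [← hJ]
    exact Ideal.mem_span_singleton_self b
  have h3 : V.valuation (algebraMap R K b) < V.valuation (algebraMap R K b) := by
    refine Submodule.mul_induction_on (C := fun r => V.valuation (algebraMap R K r) <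
      V.valuation (algebraMap R K b)) hb1 ?_ ?_
    · intro m hm n hn
      rw [map_mul, map_mul]
      calc _ ≤ V.valuation (algebraMap R K b) * V.valuation (algebraMap R K n) :=
            mul_le_mul_left (hJ1 m hm) _
        _ < V.valuation (algebraMap R K b) * 1 := by
            have hpos : 0 < V.valuation (algebraMap R K b) := zero_lt_iff.2 hvb
            exact (mul_lt_mul_iff_right₀ hpos).2 (hJ2 n hn)
        _ = _ := mul_one _
    · intro u w hu hw
      rw [map_add]
      exact V.valuation.map_add_lt hu hw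
  exact lt_irrefl _ h3

theorem place_approx (hV : V ≠ ⊤) {x : K} (hx : x ∈ V) :
    ∃ a : R, V.valuation (x - algebraMap R K a) < 1 := by
  obtain ⟨a, s, hs, hxs⟩ := place_frac V h hx
  have hP : ∀ r, r ∈ DedP_P V h ↔ V.valuation (algebraMap R K r) < 1 := fun r => Iff.rfl
  have hprime := DedP_prime V h hP
  have hne : DedP_P V h ≠ ⊥ := by
    intro hbot
    apply hV
    have h1 : ∀ r : R, r ≠ 0 → V.valuation (algebraMap R K r) = 1 := by
      intro r hr
      refine le_antisymm (DedP_le V h r) ?_
      by_contra hc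
      have h2 : r ∈ DedP_P V h := (hP r).2 (not_le.1 hc)
      rw [hbot] at h2
      exact hr (by simpa using h2)
    rw [eq_top_iff]
    intro y _
    obtain ⟨c, d, hd, rfl⟩ := IsFractionRing.div_surjective (A := R) y
    by_cases hc : c = 0
    · rw [hc, map_zero, zero_div]
      exact V.zero_mem
    · rw [← V.valuation_le_one_iff, map_div₀, h1 c hc, h1 d (nonZeroDivisors.ne_zero hd), div_one]
  have hmax : (DedP_P V h).IsMaximal := hprime.isMaximal hne
  have hs' : s ∉ DedP_P V h := by
    rw [hP, hs]
    exact lt_irrefl _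
  obtain ⟨y, i, hi, hyi⟩ := hmax.exists_inv hs'
  refine ⟨a * y, ?_⟩
  have h1 : x - algebraMap R K (a * y) = x * algebraMap R K i := by
    have h2 : algebraMap R K i = 1 - algebraMap R K y * algebraMap R K s := by
      rw [← map_one (algebraMap R K), ← hyi, map_add, map_mul]
      ring
    rw [h2, map_mul, ← hxs]
    ring
  rw [h1, map_mul]
  refine lt_of_le_of_lt (mul_le_mul_left ((V.valuation_le_one_iff _).2 hx) _) ?_
  rw [one_mul]
  exact (hP i).1 hi

theorem mem_pow_iff {P : Ideal R} (hP : ∀ a, a ∈ P ↔ V.valuation (algebraMap R K a) < 1)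
    {ϖ : V} (hϖ : Irreducible ϖ) (n : ℕ) (a : R) :
    a ∈ P ^ n ↔ V.valuation (algebraMap R K a) ≤ V.valuation (ϖ : K) ^ n := by
  have hprime := DedP_prime V h hP
  have hw0 : (ϖ : K) ≠ 0 := by
    intro h0
    exact hϖ.ne_zero (Subtype.ext h0)
  have hvw : V.valuation (ϖ : K) ≠ 0 := (V.valuation.ne_zero_iff).2 hw0
  have hw1 : V.valuation (ϖ : K) < 1 := by
    rw [← V.valuation_lt_one_iff]
    exact (IsLocalRing.mem_maximalIdeal _).2 hϖ.not_isUnit
  have key : ∀ r ∈ P, V.valuation (algebraMap R K r) ≤ V.valuation (ϖ : K) := by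
    intro r hr
    have h1 := (hP r).1 hr
    set r' : V := ⟨algebraMap R K r, h r⟩ with hr'
    have h2 : r' ∈ IsLocalRing.maximalIdeal V := (V.valuation_lt_one_iff r').2 h1
    have h3 : ¬ IsUnit r' := (IsLocalRing.mem_maximalIdeal _).1 h2
    have h4 : ϖ ∣ r' := by
      rcases ValuationRing.dvd_total ϖ r' with h5 | h5
      · exact h5
      · obtain ⟨c, hc⟩ := h5
        have h6 := (hϖ.isUnit_or_isUnit hc).resolve_left h3
        obtain ⟨u, hu⟩ := h6
        refine ⟨((u⁻¹ : Vˣ) : V), ?_⟩
        rw [hc, ← hu, mul_assoc, Units.mul_inv, mul_one]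
    obtain ⟨c, hc⟩ := h4
    have h5 : algebraMap R K r = (ϖ : K) * (c : K) := congrArg Subtype.val hc
    rw [h5, map_mul]
    calc _ ≤ V.valuation (ϖ : K) * 1 := mul_le_mul_right ((V.valuation_le_one_iff _).2 c.2) _
      _ = _ := mul_one _
  constructor
  · intro ha
    induction n generalizing a with
    | zero =>
      rw [pow_zero]
      exact DedP_le V h a
    | succ n ih =>
      rw [pow_succ] at ha ⊢
      refine Submodule.mul_induction_on (C := fun r => V.valuation (algebraMap R K r) ≤
        V.valuation (ϖ : K) ^ n * V.valuation (ϖ : K)) ha ?_ ?_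
      · intro u hu w hw
        rw [map_mul, map_mul]
        exact mul_le_mul' (ih u hu) (key w hw)
      · intro u w hu hw
        rw [map_add]
        exact V.valuation.map_add_le hu hw
  · intro ha
    obtain ⟨a₀, s₀, hs₀, h1⟩ := place_frac V h ϖ.2
    have hva : V.valuation (algebraMap R K a₀) = V.valuation (ϖ : K) := by
      rw [← h1, map_mul, hs₀, mul_one]
    have ha₀P : a₀ ∈ P := (hP a₀).2 (by rw [hva]; exact hw1)
    have ha₀ : algebraMap R K a₀ ≠ 0 := by
      rw [← V.valuation.ne_zero_iff, hva]
      exact hvw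
    have hy : algebraMap R K a / algebraMap R K a₀ ^ n ∈ V := by
      rw [← V.valuation_le_one_iff, map_div₀, map_pow, hva]
      exact div_le_one_of_le₀ ha zero_le'
    obtain ⟨b, s, hs, h2⟩ := place_frac V h hy
    have h3 : s * a = a₀ ^ n * b := by
      apply IsFractionRing.injective R K
      rw [map_mul, map_mul, map_pow, ← h2]
      have h4 : algebraMap R K a₀ ^ n ≠ 0 := pow_ne_zero _ ha₀
      field_simp
    have h4 : s * a ∈ P ^ n := by
      rw [h3]
      exact Ideal.mul_mem_right _ _ (Ideal.pow_mem_pow ha₀P n)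
    rcases Ideal.IsPrime.mul_mem_pow P h4 with h5 | h5
    · exfalso
      rw [hP, hs] at h5
      exact lt_irrefl _ h5
    · exact h5

end Pool.Agent.GBC
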