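import Pool.Agent.Lib.GBC.Def

/-!
Block G (the twist) of GBC: definitions.
-/

set_option autoImplicit false

open Polynomial

namespace Pool.Agent.GBC

open Pool.Agent.BSDP Pool.Agent.BSDFF Pool.Agent.HYP

/-- Every completion is a local field with complete valuation ring. -/
def LocC (k K : Type) [Field k] [Field K] [Algebra k K] : Prop :=
  ∀ w : Place k K, ∃ L : LocK w, Complete L.toLoc

/-- Reciprocity for quadratic forms of rank `2 g + 1` over `K`. -/
def Rec (k K : Type) [Field k] [Field K] [Algebra k K] (g : ℕ) : Prop :=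
  ∀ Q : Matrix (Fin (2 * g + 1)) (Fin (2 * g + 1)) K, Q.transpose = Q → Q.det ≠ 0 →
    ∀ v₀ : Place k K, (∀ v : Place k K, v ≠ v₀ → SplitM g (Q.map v.toCompletion)) →
      SplitM g (Q.map v₀.toCompletion)

namespace Geo

variable {k K : Type} [Field k] [Field K] [Algebra k K] (G : Geo k K)

/-- `A → O_w` -/
noncomputable def toOA (w : G.FP) (L : LocK w.1) : G.A →+* L.O :=
  (w.1.toCompletion.comp (algebraMap G.A K)).codRestrict L.O.toSubring
    (fun a => (L.mem_iff (a : K)).2 (w.2 a a.2))

theorem toOA_coe (w : G.FP) (L : LocK w.1) (a : G.A) :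
    ((G.toOA w L a : L.O) : w.1.ring.valuation.Completion) = w.1.toCompletion (a : K) := rfl

end Geo

end Pool.Agent.GBC
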