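import Pool.Agent.Lib.GBC.G.RegA
import Pool.Agent.Lib.HYP.F.DetA

/-!
Module G.DetA of GBC. If `f mod w = (x - ρ) h₀` with `h₀` irreducible of degree `2 g ≥ 2`, then over the
completion at `w` `f = (x - ξ) h` with `h` irreducible over the residue field.

ADAPTATION of `Pool/Agent/Lib/HYP/F/DetA.lean` (word for word with `detA_hom hπ L` replaced by
`G.toOA w L`, `AdjoinRoot.mk π` by `G.res w`).
-/

set_option autoImplicit false

open Polynomial

namespace Pool.Agent.GBC

open Pool.Agent.BSDP Pool.Agent.BSDFF Pool.Agent.HYP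

private theorem G_DetA_hensel {O : Type} [CommRing O] [IsDomain O] [IsLocalRing O]
    (hens : HenselianLocalRing O) {n : ℕ} (hn : 2 ≤ n) {F : O[X]} (hF : F.Monic)
    (hd : F.natDegree = n + 1) (r : IsLocalRing.ResidueField O)
    (h₁ : (IsLocalRing.ResidueField O)[X]) (hm1 : h₁.Monic) (hi1 : Irreducible h₁)
    (hres : F.map (IsLocalRing.residue O) = (X - C r) * h₁) :
    ∃ (ξ : O) (h : O[X]), h.Monic ∧ h.natDegree = n ∧ (X - C ξ) * h = F ∧
      IsLocalRing.residue O ξ = r ∧ h.map (IsLocalRing.residue O) = h₁ := by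
  have hd1 : h₁.natDegree = n := by
    have h1 : (F.map (IsLocalRing.residue O)).natDegree = n + 1 := by rw [hF.natDegree_map, hd]
    rw [hres, (monic_X_sub_C r).natDegree_mul hm1, natDegree_X_sub_C] at h1
    omega
  have hr1 : h₁.eval r ≠ 0 := by
    intro h0
    have h1 := Polynomial.degree_eq_one_of_irreducible_of_root hi1 h0
    have h2 := Polynomial.natDegree_eq_of_degree_eq_some h1
    have h3 : n = 1 := hd1.symm.trans h2
    omega
  have hev : ∀ (p : O[X]) (a : O), IsLocalRing.residue O (p.eval a) =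
      (p.map (IsLocalRing.residue O)).eval (IsLocalRing.residue O a) := by
    intro p a
    rw [Polynomial.eval_map, Polynomial.eval₂_at_apply]
  obtain ⟨a₀, ha₀⟩ := IsLocalRing.residue_surjective (R := O) r
  have e1 : F.eval a₀ ∈ IsLocalRing.maximalIdeal O := by
    rw [← IsLocalRing.residue_eq_zero_iff, hev, hres, ha₀, Polynomial.eval_mul,
      Polynomial.eval_sub, Polynomial.eval_X, Polynomial.eval_C, sub_self, zero_mul]
  have e2 : IsUnit (F.derivative.eval a₀) := by
    rw [← IsLocalRing.residue_ne_zero_iff_isUnit, hev, ← Polynomial.derivative_map, hres, ha₀,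
      Polynomial.derivative_mul, Polynomial.derivative_sub, Polynomial.derivative_X,
      Polynomial.derivative_C, sub_zero, one_mul, Polynomial.eval_add, Polynomial.eval_mul,
      Polynomial.eval_sub, Polynomial.eval_X, Polynomial.eval_C, sub_self, zero_mul, add_zero]
    exact hr1
  obtain ⟨ξ, hξ, hξ0⟩ := hens.is_henselian F hF a₀ e1 e2
  have hrξ : IsLocalRing.residue O ξ = r := by
    rw [← ha₀, ← sub_eq_zero, ← map_sub, IsLocalRing.residue_eq_zero_iff]
    exact hξ0
  have hdiv : (X - C ξ) * (F /ₘ (X - C ξ)) = F :=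
    Polynomial.mul_divByMonic_eq_iff_isRoot.2 hξ
  have hmh : (F /ₘ (X - C ξ)).Monic := (monic_X_sub_C ξ).of_mul_monic_left (by rw [hdiv]; exact hF)
  have hdh : (F /ₘ (X - C ξ)).natDegree = n := by
    have h1 := (monic_X_sub_C ξ).natDegree_mul hmh
    rw [hdiv, hd, natDegree_X_sub_C] at h1
    omega
  refine ⟨ξ, F /ₘ (X - C ξ), hmh, hdh, hdiv, hrξ, ?_⟩
  have h1 : (X - C r) * (F /ₘ (X - C ξ)).map (IsLocalRing.residue O) = (X - C r) * h₁ := by
    rw [← hres]
    conv_rhs => rw [← hdiv]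
    rw [Polynomial.map_mul, Polynomial.map_sub, Polynomial.map_X, Polynomial.map_C, hrξ]
  exact mul_left_cancel₀ (monic_X_sub_C r).ne_zero h1

variable {k K : Type} [Field k] [Field K] [Algebra k K] (G : Geo k K) (w : G.FP) (L : LocK w.1)

theorem exists_rootAtA {g : ℕ} (hg : 1 ≤ g) {f : G.A[X]} (hf : f.Monic)
    (hn : f.natDegree = 2 * g + 1) (ρ : G.κ w) (h₀ : (G.κ w)[X]) (hm : h₀.Monic)
    (hi : Irreducible h₀) (hfac : f.map (G.res w) = (X - C ρ) * h₀)
    (ψ : G.κ w →+* IsLocalRing.ResidueField L.O) (hψ : Function.Bijective ψ)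
    (hψ' : ∀ a : G.A, ψ (G.res w a) = IsLocalRing.residue L.O (G.toOA w L a)) :
    ∃ (ξ : L.O) (h : L.O[X]),
      RootAt L.toLoc g ((G.fK f).map w.1.toCompletion) ξ h ∧
      IsLocalRing.residue L.O ξ = ψ ρ ∧ h.map (IsLocalRing.residue L.O) = h₀.map ψ := by
  have hnt : Nontrivial (G.κ w) := ψ.domain_nontrivial
  have h1 : (IsLocalRing.residue L.O).comp (G.toOA w L) = ψ.comp (G.res w) := by
    refine RingHom.ext fun p => ?_
    rw [RingHom.comp_apply, RingHom.comp_apply, hψ' p]
  have hfO : (f.map (G.toOA w L)).Monic := hf.map (G.toOA w L)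
  have hdO : (f.map (G.toOA w L)).natDegree = 2 * g + 1 := by rw [hf.natDegree_map, hn]
  have hres : (f.map (G.toOA w L)).map (IsLocalRing.residue L.O) =
      (X - C (ψ ρ)) * h₀.map ψ := by
    have h2 : (f.map (G.toOA w L)).map (IsLocalRing.residue L.O) = (f.map (G.res w)).map ψ := by
      rw [Polynomial.map_map (f := G.toOA w L), h1, Polynomial.map_map]
    rw [h2, hfac, Polynomial.map_mul, Polynomial.map_sub, Polynomial.map_X, Polynomial.map_C]
  have hi1 : Irreducible (h₀.map ψ) :=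
    (MulEquiv.irreducible_iff (Polynomial.mapEquiv (RingEquiv.ofBijective ψ hψ)) (x := h₀)).2 hi
  obtain ⟨ξ, h, hmh, hdh, hdiv, hrξ, hhres⟩ := G_DetA_hensel L.hens (n := 2 * g) (by omega)
    hfO hdO (ψ ρ) (h₀.map ψ) (hm.map ψ) hi1 hres
  refine ⟨ξ, h, ⟨hmh, hdh, ?_, ?_⟩, hrξ, hhres⟩
  · rw [hdiv, Polynomial.map_map, Polynomial.map_map]
    rfl
  · rw [hhres]
    exact hi1

end Pool.Agent.GBC
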