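import Pool.Agent.Lib.GBC.G.DetA
import Pool.Agent.Lib.HYP.F.DetB

/-!
Module G.DetB of GBC. A class which is detected at `w` is a unit with nonsquare value at the simple root
`ξ`.

ADAPTATION of `Pool/Agent/Lib/HYP/F/DetB.lean`: copy the private lemmas `db_ev_mk`, `db_ev_bc`,
`db_mk_mul`, `Dm`, `Dm_map`, `db_core`, `db_loc` (they are over arbitrary rings, fields, local fields `L : Loc F`;
give them new names), and the last proof with `exists_resA`, `exists_rootAtA`, `reg_locA`, `G.toOA w L`,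
`G.res w` in place of `exists_resHom`, `exists_rootAt`, `reg_loc`, `φO`, `AdjoinRoot.mk π`. The only change:
instead of `hgood.unit` there is `(G1.map (G.res w)).det ≠ 0`; so `G.toOA w L G1.det` is a unit of `L.O`
(its residue is `ψ` of `(G1.map (G.res w)).det`, `IsLocalRing.residue_ne_zero_iff_isUnit`), which is the
hypothesis `hu` of `db_loc`, and `det G1 ≠ 0` modulo `w` is what is cancelled in the proof of `hfac`.
-/

set_option autoImplicit false

open Polynomial

namespace Pool.Agent.GBC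

open Pool.Agent.BSDP Pool.Agent.BSDFF Pool.Agent.HYP

section alg

variable {S : Type} [CommRing S]

private theorem DetB_ev_mk {f : S[X]} (ξ : S) (h : f.eval ξ = 0) (P : S[X]) :
    ev ξ h (AdjoinRoot.mk f P) = P.eval ξ := by
  unfold ev
  rw [AdjoinRoot.lift_mk, Polynomial.eval₂_id]

private theorem DetB_ev_bc {T : Type} [CommRing T] {f : S[X]} (φ : S →+* T) (ξ : S)
    (h : f.eval ξ = 0) (h' : (f.map φ).eval (φ ξ) = 0) (x : AdjoinRoot f) :
    ev (φ ξ) h' (bc φ f x) = φ (ev ξ h x) := by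
  obtain ⟨P, rfl⟩ := AdjoinRoot.mk_surjective x
  rw [bc_mk, DetB_ev_mk, DetB_ev_mk, Polynomial.eval_map, Polynomial.eval₂_at_apply]

private theorem DetB_mk_mul {f h : S[X]} {ξ : S} (hf : f = (X - C ξ) * h) (Q : S[X]) :
    AdjoinRoot.mk f Q * AdjoinRoot.mk f h = Q.eval ξ • AdjoinRoot.mk f h := by
  rw [Algebra.smul_def, AdjoinRoot.algebraMap_eq, ← AdjoinRoot.mk_C, ← map_mul, ← map_mul,
    ← sub_eq_zero, ← map_sub, AdjoinRoot.mk_eq_zero, ← sub_mul, hf]
  exact mul_dvd_mul_right (Polynomial.X_sub_C_dvd_sub_C_eval) h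

private noncomputable def DetB_Dm {n : ℕ} (G1 G2 : Matrix (Fin n) (Fin n) S) : S[X] :=
  ((Matrix.scalar (Fin n) (X : S[X])) * G1.map C - G2.map C).det

private theorem DetB_Dm_map {T : Type} [CommRing T] (φ : S →+* T) {n : ℕ}
    (G1 G2 : Matrix (Fin n) (Fin n) S) : (DetB_Dm G1 G2).map φ = DetB_Dm (G1.map φ) (G2.map φ) := by
  unfold DetB_Dm
  rw [← Polynomial.coe_mapRingHom, RingHom.map_det]
  congr 1
  ext1 i j
  rw [RingHom.mapMatrix_apply, Matrix.map_apply, Matrix.sub_apply, Matrix.sub_apply,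
    Matrix.scalar_apply, Matrix.scalar_apply, Matrix.diagonal_mul, Matrix.diagonal_mul, map_sub,
    map_mul, Polynomial.coe_mapRingHom, Polynomial.map_X]
  simp only [Matrix.map_apply, Polynomial.map_C]

end alg

section field

variable {κ : Type} [Field κ]

private theorem DetB_core {f h : κ[X]} {ξ : κ} (hf : f.Monic) (hfac : f = (X - C ξ) * h)
    (hh : h.Monic) {n : ℕ} (hn : f.natDegree = n) (e : AdjoinRoot f) (he : IsUnit e)
    (hξ : f.eval ξ = 0)
    (b : Fin n → AdjoinRoot f) (hb : (coord hf b).det ≠ 0) (w : Fin n → κ) (hw : w ≠ 0)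
    (hker : (gram2 hf e b).mulVec w = ξ • (gram1 hf e b).mulVec w) :
    ∃ a : κ, dotProduct w ((gram1 hf e b).mulVec w) * h.eval ξ =
      ev ξ hξ e * (a * h.eval ξ) ^ 2 := by
  have hdeg : h.natDegree + 1 = n := by
    rw [← hn, hfac, (monic_X_sub_C ξ).natDegree_mul hh, natDegree_X_sub_C]
    ring
  set P := coord hf b with hP
  have hPu : IsUnit P.det := isUnit_iff_ne_zero.2 hb
  set l : AdjoinRoot f := ∑ i, w i • b i with hl
  -- the standard basis in terms of `b`
  have hstd : ∀ j : Fin n, std f n j = ∑ i, P⁻¹ j i • b i := by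
    intro j
    have h1 := eq_coord hf hn b
    rw [← hP] at h1
    calc std f n j = ∑ m, (1 : Matrix (Fin n) (Fin n) κ) j m • std f n m := by
          rw [Finset.sum_eq_single j]
          · rw [Matrix.one_apply_eq, one_smul]
          · intro m _ hm
            rw [Matrix.one_apply_ne hm.symm, zero_smul]
          · intro h2
            exact absurd (Finset.mem_univ j) h2
      _ = ∑ m, (∑ i, P⁻¹ j i * P i m) • std f n m := by
          rw [← Matrix.nonsing_inv_mul P hPu]
          rfl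
      _ = ∑ m, ∑ i, P⁻¹ j i • P i m • std f n m := by
          refine Finset.sum_congr rfl fun m _ => ?_
          rw [Finset.sum_smul]
          exact Finset.sum_congr rfl fun i _ => mul_smul _ _ _
      _ = ∑ i, ∑ m, P⁻¹ j i • P i m • std f n m := Finset.sum_comm
      _ = ∑ i, P⁻¹ j i • b i := by
          refine Finset.sum_congr rfl fun i _ => ?_
          rw [← Finset.smul_sum]
          congr 1
          exact (congrFun h1 i).symm
  -- the kernel
  have hzero : e * (AdjoinRoot.root f - algebraMap κ (AdjoinRoot f) ξ) * l = 0 := by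
    refine eq_zero_of_tau hf _ fun j hj => ?_
    have hj' : j < n := by rw [← hn]; exact hj
    have h1 : AdjoinRoot.root f ^ j = ∑ i, P⁻¹ ⟨j, hj'⟩ i • b i := hstd ⟨j, hj'⟩
    rw [h1]
    have h2 := gram1_form hf (AdjoinRoot.root f * e) b (fun i => P⁻¹ ⟨j, hj'⟩ i) w
    have h3 := gram1_form hf e b (fun i => P⁻¹ ⟨j, hj'⟩ i) w
    rw [← HYP.gram2_eq, hker, dotProduct_smul, ← h3, smul_eq_mul] at h2
    have h4 : e * (AdjoinRoot.root f - algebraMap κ (AdjoinRoot f) ξ) * l *
        ∑ i, P⁻¹ ⟨j, hj'⟩ i • b i =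
        AdjoinRoot.root f * e * (∑ i, P⁻¹ ⟨j, hj'⟩ i • b i) * (∑ i, w i • b i) -
          ξ • (e * (∑ i, P⁻¹ ⟨j, hj'⟩ i • b i) * (∑ i, w i • b i)) := by
      rw [Algebra.smul_def]
      ring
    rw [h4, map_sub, h2, map_smul, smul_eq_mul, sub_self]
  have hzero' : (AdjoinRoot.root f - algebraMap κ (AdjoinRoot f) ξ) * l = 0 := by
    rw [mul_assoc] at hzero
    exact (he.mul_right_eq_zero).1 hzero
  have hl0 : l ≠ 0 := by
    intro h0
    apply hw
    have h1 : Matrix.vecMul w P = 0 := by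
      funext j
      have h2 := congrArg (fun x => (AdjoinRoot.modByMonicHom hf x).coeff (j : ℕ)) h0
      simp only [hl, map_sum, map_smul, map_zero, coeff_zero, finsetSum_coeff, coeff_smul,
        smul_eq_mul] at h2
      exact h2
    exact Matrix.eq_zero_of_vecMul_eq_zero hb h1
  have hn1 : 1 ≤ f.natDegree := by omega
  obtain ⟨Pl, hPl, hPl'⟩ := exists_repr hf hn1 l
  have hPl0 : Pl ≠ 0 := by
    rintro rfl
    exact hl0 (by rw [hPl', map_zero])
  have hdvd : h ∣ Pl := by
    rw [hPl', ← AdjoinRoot.mk_X, AdjoinRoot.algebraMap_eq, ← AdjoinRoot.mk_C, ← map_sub, ← map_mul,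
      AdjoinRoot.mk_eq_zero] at hzero'
    nth_rewrite 1 [hfac] at hzero'
    exact (mul_dvd_mul_iff_left (X_sub_C_ne_zero ξ)).1 hzero'
  obtain ⟨q, hq⟩ := hdvd
  have hq0 : q ≠ 0 := by
    rintro rfl
    exact hPl0 (by rw [hq, mul_zero])
  have hqd : q.natDegree = 0 := by
    have h1 := natDegree_mul hh.ne_zero hq0
    rw [← hq] at h1
    omega
  obtain ⟨a, ha⟩ : ∃ a, q = C a := ⟨q.coeff 0, eq_C_of_natDegree_eq_zero hqd⟩
  have hlh : l = a • AdjoinRoot.mk f h := by
    rw [hPl', hq, ha, Algebra.smul_def, AdjoinRoot.algebraMap_eq, ← AdjoinRoot.mk_C, ← map_mul,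
      mul_comm]
  refine ⟨a, ?_⟩
  have hform := gram1_form hf e b w w
  rw [← hform, ← hl, hlh]
  obtain ⟨Qe, rfl⟩ := AdjoinRoot.mk_surjective e
  have h1 : AdjoinRoot.mk f Qe * (a • AdjoinRoot.mk f h) * (a • AdjoinRoot.mk f h) =
      (a * a * Qe.eval ξ * h.eval ξ) • AdjoinRoot.mk f h := by
    have h5 : AdjoinRoot.mk f Qe * (a • AdjoinRoot.mk f h) * (a • AdjoinRoot.mk f h) =
        (a * a) • (AdjoinRoot.mk f Qe * AdjoinRoot.mk f h * AdjoinRoot.mk f h) := by
      rw [mul_smul_comm, mul_smul_comm, smul_mul_assoc, smul_smul]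
    rw [h5, DetB_mk_mul hfac, smul_mul_assoc, DetB_mk_mul hfac, smul_smul, smul_smul]
  have h2 : tau hf (AdjoinRoot.mk f h) = 1 := by
    rw [tau_mk_lt hf h (by omega)]
    have h3 : f.natDegree - 1 = h.natDegree := by omega
    rw [h3]
    exact hh.coeff_natDegree
  rw [h1, map_smul, h2, DetB_ev_mk, smul_eq_mul]
  ring

end field

section loc

variable {F : Type} [Field F] (L : Loc F)

private theorem DetB_loc {g : ℕ} {f : F[X]} (hf : f.Monic) {ξ : L.O} {h : L.O[X]}
    (H : RootAt L g f ξ h) (hr : Reg L f) (c : AdjoinRoot f)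
    (b : Fin (2 * g + 1) → AdjoinRoot f) (G1 G2 : Matrix (Fin (2 * g + 1)) (Fin (2 * g + 1)) L.O)
    (h1 : gram1 hf c b = G1.map (algebraMap L.O F)) (h2 : gram2 hf c b = G2.map (algebraMap L.O F))
    (hu : IsUnit G1.det) (w : Fin (2 * g + 1) → IsLocalRing.ResidueField L.O) (hw : w ≠ 0)
    (hker : (G2.map (IsLocalRing.residue L.O)).mulVec w =
      IsLocalRing.residue L.O ξ • (G1.map (IsLocalRing.residue L.O)).mulVec w)
    (hns : ¬ IsSquare (dotProduct w ((G1.map (IsLocalRing.residue L.O)).mulVec w) *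
      (h.map (IsLocalRing.residue L.O)).eval (IsLocalRing.residue L.O ξ)))
    (hN : SqNorm c) : EtaAt L H c := by
  have hinj : Function.Injective (algebraMap L.O F) := Subtype.val_injective
  -- the integral polynomial
  have hfac := H.fac
  set fO : L.O[X] := (X - C ξ) * h with hfO
  have hmO : fO.Monic := (monic_X_sub_C ξ).mul H.monic
  have hdO : fO.natDegree = 2 * g + 1 := by
    rw [hfO, (monic_X_sub_C ξ).natDegree_mul H.monic, natDegree_X_sub_C, H.deg]
    ring
  have hroot : fO.eval ξ = 0 := by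
    rw [hfO, eval_mul, eval_sub, eval_X, eval_C, sub_self, zero_mul]
  have hroot' : f.eval (ξ : F) = 0 := H.root
  have hgen : ∀ (h0 : ¬ IsSquare (ev (ξ : F) hroot' c)) (hU : UnitAt L c), EtaAt L H c :=
    fun h0 hU => ⟨hU, hN, h0⟩
  clear_value fO
  subst hfac
  have hn : (fO.map (algebraMap L.O F)).natDegree = 2 * g + 1 := by
    rw [natDegree_map_eq_of_injective hinj, hdO]
  have hcoef : Coef L (fO.map (algebraMap L.O F)) := (coef_iff L _).2 ⟨fO, rfl⟩
  have hgood : GoodR L.O.toSubring hf c b := by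
    refine ⟨fun i j => ?_, fun i j => ?_, ?_⟩
    · rw [h1]
      exact (G1 i j).2
    · rw [h2]
      exact (G2 i j).2
    · obtain ⟨v, hv⟩ := hu.exists_left_inv
      refine ⟨(v : F), v.2, ?_⟩
      rw [h1]
      have h3 : (G1.map (algebraMap L.O F)).det = algebraMap L.O F G1.det :=
        (RingHom.map_det (algebraMap L.O F) G1).symm
      rw [h3]
      have h4 := congrArg (algebraMap L.O F) hv
      rw [map_mul, map_one] at h4
      exact h4
  obtain ⟨e, e', z, P, he, he', hee, hz, hez, hPu, hbz⟩ := nine L hf hn hcoef hr c b hgood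
  -- integral versions
  have hlift : ∀ x : AdjoinRoot (fO.map (algebraMap L.O F)), IntE L x →
      ∃ y : AdjoinRoot fO, x = bc (algebraMap L.O F) fO y := by
    rintro x ⟨Q, hQ, rfl⟩
    obtain ⟨Q', rfl⟩ := (coef_iff L Q).1 hQ
    exact ⟨AdjoinRoot.mk fO Q', (bc_mk _ _).symm⟩
  obtain ⟨eO, heO⟩ := hlift e he
  obtain ⟨eO', heO'⟩ := hlift e' he'
  have heu : eO * eO' = 1 := by
    apply bc_injective hmO (algebraMap L.O F) hinj
    rw [map_mul, map_one, ← heO, ← heO', hee]
  have heU : IsUnit eO := IsUnit.of_mul_eq_one _ heu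
  let bO : Fin (2 * g + 1) → AdjoinRoot fO := fun i => ∑ j, P i j • std fO (2 * g + 1) j
  have hbO : b = fun i => z * bc (algebraMap L.O F) fO (bO i) := by
    funext i
    rw [hbz i]
    show _ = z * bc (algebraMap L.O F) fO (∑ j, P i j • std fO (2 * g + 1) j)
    rw [map_sum, Finset.mul_sum]
    refine Finset.sum_congr rfl fun j _ => ?_
    rw [bc_smul, mul_smul_comm]
    unfold HYP.std
    rw [map_pow, bc_root]
    rfl
  have hG1 : G1 = gram1 hmO eO bO := by
    have h3 : gram1 hf c b = (gram1 hmO eO bO).map (algebraMap L.O F) := by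
      rw [hbO, gram1_scale, ← hez, heO]
      exact gram1_bc hmO (algebraMap L.O F) eO bO
    rw [h1] at h3
    ext i j
    exact congrArg Subtype.val (hinj (congrFun (congrFun h3 i) j))
  have hG2 : G2 = gram2 hmO eO bO := by
    have h3 : gram2 hf c b = (gram2 hmO eO bO).map (algebraMap L.O F) := by
      rw [hbO, gram2_scale, ← hez, heO]
      exact gram2_bc hmO (algebraMap L.O F) eO bO
    rw [h2] at h3
    ext i j
    exact congrArg Subtype.val (hinj (congrFun (congrFun h3 i) j))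
  -- unit
  have hUnit : UnitAt L c := by
    obtain ⟨u, hu'⟩ := hz
    refine ⟨e, e', ((u⁻¹ : (AdjoinRoot (fO.map (algebraMap L.O F)))ˣ) :
      AdjoinRoot (fO.map (algebraMap L.O F))), he, he', hee, Units.isUnit _, ?_⟩
    rw [hez, ← hu', mul_assoc, ← mul_pow, Units.mul_inv, one_pow, mul_one]
  refine hgen ?_ hUnit
  intro hsq
  -- evaluation of `e`
  have hevO : IsUnit (ev ξ hroot eO) := heU.map _
  have hsq2 : IsSquare ((ev ξ hroot eO : L.O) : F) := by
    have h3 := DetB_ev_bc (algebraMap L.O F) ξ hroot hroot' eO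
    rw [← heO, hez, map_mul, map_pow] at h3
    have h4 : ((ev ξ hroot eO : L.O) : F) = ev (ξ : F) hroot' c * ev (ξ : F) hroot' z ^ 2 := h3.symm
    rw [h4]
    exact hsq.mul (IsSquare.sq _)
  have hsq3 := (BSDP.R.isSquare_iff_residue L _ hevO).1 hsq2
  -- the residue field
  set φ := IsLocalRing.residue L.O with hφ
  have hmb : (fO.map φ).Monic := hmO.map φ
  have hfb : fO.map φ = (X - C (φ ξ)) * h.map φ := by
    rw [hfO, Polynomial.map_mul, Polynomial.map_sub, Polynomial.map_X, Polynomial.map_C]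
  have hrb : (fO.map φ).eval (φ ξ) = 0 := by
    rw [eval_map, eval₂_at_apply, hroot, map_zero]
  have hg1 : G1.map φ = gram1 hmb (bc φ fO eO) (fun i => bc φ fO (bO i)) := by
    rw [hG1]
    exact (gram1_bc hmO φ eO bO).symm
  have hg2 : G2.map φ = gram2 hmb (bc φ fO eO) (fun i => bc φ fO (bO i)) := by
    rw [hG2]
    exact (gram2_bc hmO φ eO bO).symm
  rw [hg1] at hns
  rw [hg1, hg2] at hker
  have hcoord : (coord hmb (fun i => bc φ fO (bO i))).det ≠ 0 := by
    have h3 : (fun i => bc φ fO (bO i)) =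
        fun i => ∑ j, (P.map φ) i j • std (fO.map φ) (2 * g + 1) j := by
      funext i
      show bc φ fO (∑ j, P i j • std fO (2 * g + 1) j) = _
      rw [map_sum]
      refine Finset.sum_congr rfl fun j _ => ?_
      rw [bc_smul]
      unfold HYP.std
      rw [map_pow, bc_root]
      rfl
    have hnb : (fO.map φ).natDegree = 2 * g + 1 := by rw [hmO.natDegree_map, hdO]
    rw [h3, HYP.coord_chb, coord_std hmb hnb, Matrix.mul_one]
    have h4 : (P.map φ).det = φ P.det := (RingHom.map_det φ P).symm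
    rw [h4]
    exact (hPu.map φ).ne_zero
  obtain ⟨a, ha⟩ := DetB_core hmb hfb (H.monic.map φ) (by rw [hmO.natDegree_map, hdO])
    (bc φ fO eO) (heU.map _) hrb (fun i => bc φ fO (bO i)) hcoord w hw hker
  apply hns
  rw [ha, DetB_ev_bc φ ξ hroot hrb eO]
  exact hsq3.mul (IsSquare.sq _)

end loc

variable {k K : Type} [Field k] [Field K] [Algebra k K] (G : Geo k K) (w : G.FP) (L : LocK w.1)

theorem eta_of_detA {g : ℕ} (hg : 1 ≤ g) {f : G.A[X]} (hf : f.Monic)
    (hn : f.natDegree = 2 * g + 1) (hr : RegI (G.prime w) f) (hm : (G.fK f).Monic)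
    (c : AdjoinRoot (G.fK f)) (hc : SqNorm c) (hD : DetG G g hm w c) :
    ∃ (ξ : L.O) (h : L.O[X]) (H : RootAt L.toLoc g ((G.fK f).map w.1.toCompletion) ξ h),
      EtaAt L.toLoc H (bc w.1.toCompletion (G.fK f) c) := by
  obtain ⟨b, G1, G2, hg1, hg2, hdetu, ρ, v, h₀, hv, hker, hm0, hi0, hdet, hns⟩ := hD
  -- the reduction of `f`
  have hinjK : Function.Injective (algebraMap G.A K) := Subtype.val_injective
  have hnK : (G.fK f).natDegree = 2 * g + 1 := by
    rw [Geo.fK, natDegree_map_eq_of_injective hinjK, hn]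
  have hpen : DetB_Dm G1 G2 = C G1.det * f := by
    have h1 := pencil hm hnK c b
    rw [hg1, hg2] at h1
    have h2 : DetB_Dm (G1.map (algebraMap G.A K)) (G2.map (algebraMap G.A K)) =
        C (G1.map (algebraMap G.A K)).det * G.fK f := h1
    rw [← DetB_Dm_map] at h2
    apply Polynomial.map_injective _ hinjK
    rw [h2, Polynomial.map_mul, Polynomial.map_C]
    congr 2
    exact (RingHom.map_det (algebraMap G.A K) G1).symm
  have hfac : f.map (G.res w) = (X - C ρ) * h₀ := by
    have h1 := congrArg (Polynomial.map (G.res w)) hpen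
    rw [DetB_Dm_map, Polynomial.map_mul, Polynomial.map_C] at h1
    have h2 : DetB_Dm (G1.map (G.res w)) (G2.map (G.res w)) =
        C (G1.map (G.res w)).det * ((X - C ρ) * h₀) := hdet
    have h3 : (G1.map (G.res w)).det = G.res w G1.det :=
      (RingHom.map_det (G.res w) G1).symm
    rw [h2, ← h3] at h1
    exact (mul_left_cancel₀ (by rw [Ne, Polynomial.C_eq_zero]; exact hdetu) h1).symm
  obtain ⟨ψ, hψ, hψ'⟩ := exists_resA G w L
  obtain ⟨ξ, h, H, hξ, hh⟩ := exists_rootAtA G w L hg hf hn ρ h₀ hm0 hi0 hfac ψ hψ hψ'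
  refine ⟨ξ, h, H, ?_⟩
  set Φ := w.1.toCompletion with hΦ
  have hcomp : ∀ M : Matrix (Fin (2 * g + 1)) (Fin (2 * g + 1)) G.A,
      (M.map (algebraMap G.A K)).map Φ = (M.map (G.toOA w L)).map (algebraMap L.O _) := by
    intro M
    ext i j
    rfl
  have hres : ∀ M : Matrix (Fin (2 * g + 1)) (Fin (2 * g + 1)) G.A,
      (M.map (G.toOA w L)).map (IsLocalRing.residue L.O) = (M.map (G.res w)).map ψ := by
    intro M
    ext i j
    rw [Matrix.map_apply, Matrix.map_apply, Matrix.map_apply, Matrix.map_apply, hψ']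
  refine DetB_loc L.toLoc (hm.map Φ) H (reg_locA G w L hr) (bc Φ (G.fK f) c)
    (fun i => bc Φ (G.fK f) (b i)) (G1.map (G.toOA w L)) (G2.map (G.toOA w L)) ?_ ?_ ?_
    (fun i => ψ (v i)) ?_ ?_ ?_ ?_
  · rw [← hcomp, ← hg1]
    exact gram1_bc hm Φ c b
  · rw [← hcomp, ← hg2]
    exact gram2_bc hm Φ c b
  · have h1 : (G1.map (G.toOA w L)).det = G.toOA w L G1.det :=
      (RingHom.map_det (G.toOA w L) G1).symm
    rw [h1, ← IsLocalRing.residue_ne_zero_iff_isUnit, ← hψ']
    have h3 : (G1.map (G.res w)).det = G.res w G1.det :=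
      (RingHom.map_det (G.res w) G1).symm
    rw [← h3]
    exact (map_ne_zero ψ).2 hdetu
  · intro h0
    apply hv
    funext i
    have h1 := congrFun h0 i
    exact hψ.1 (by rw [h1, Pi.zero_apply, Pi.zero_apply, map_zero])
  · rw [hres, hres, hξ]
    funext i
    have h1 := congrArg ψ (congrFun hker i)
    rw [RingHom.map_mulVec, Pi.smul_apply, smul_eq_mul, map_mul, RingHom.map_mulVec] at h1
    exact h1
  · rw [hres, hξ, hh, Polynomial.eval_map, Polynomial.eval₂_at_apply]
    intro hsq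
    apply hns
    have h1 : dotProduct (fun i => ψ (v i)) (((G1.map (G.res w)).map ψ).mulVec
        fun i => ψ (v i)) = ψ (dotProduct v ((G1.map (G.res w)).mulVec v)) := by
      rw [RingHom.map_dotProduct]
      congr 1
      funext i
      exact (RingHom.map_mulVec ψ _ v i).symm
    rw [h1, ← map_mul] at hsq
    obtain ⟨r, hr'⟩ := hsq
    obtain ⟨s, rfl⟩ := hψ.2 r
    rw [← map_mul] at hr'
    exact ⟨s, hψ.1 hr'⟩
  · obtain ⟨a, ha, hac⟩ := hc
    refine ⟨Φ a, (map_ne_zero Φ).2 ha, ?_⟩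
    rw [norm_bc hm, hac, map_pow]

end Pool.Agent.GBC
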