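import Pool.Agent.Lib.GBC.G.ModInf

/-!
Module G.IrrF of GBC. The polynomials of the family (without regularity) are irreducible over `K`.

PROOF. `B` is a domain with `1 ≠ 0`, so it has a maximal ideal `m` (`Ideal.exists_maximal`), and `t⁻¹ ∈ m`
(`rad`). Let `F = (fK f).scaleRoots (t⁻¹ ^ (2 m))`; its coefficients are `e_j = f_j t⁻¹ ^ (2 m (n - j))`
(`n = 2 g + 1`), and by `lead` `e_j - φ_j ∈ t⁻¹ B` (multiply by `t⁻¹ ^ (2 m (n - j))`; `G.M y` is
`{x | t ^ (-y) x ∈ B}`). So `F = h.map (algebraMap B K)` with `h` monic of degree `n` and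
`h.map (mk m) = φ.map (mk m)`, irreducible (`D.irr`). `Polynomial.Monic.irreducible_of_irreducible_map`:
`h` is irreducible; `Polynomial.Monic.irreducible_iff_irreducible_map_fraction_map` (`B` is a principal
ideal domain, hence integrally closed, `fracB`): `F` is irreducible.
`irr_scale`: if `f = p q` then `f.scaleRoots a = p.scaleRoots a * q.scaleRoots a`
(`Polynomial.mul_scaleRoots_of_noZeroDivisors`), the degrees are the same (`natDegree_scaleRoots`), and over a
field `p` is a unit iff `p ≠ 0` has degree `0`.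
-/

set_option autoImplicit false

open Polynomial

namespace Pool.Agent.GBC

open Pool.Agent.BSDP Pool.Agent.BSDFF Pool.Agent.HYP

theorem irr_scale {F : Type} [Field F] {p : F[X]} {a : F} (ha : a ≠ 0)
    (h : Irreducible (p.scaleRoots a)) : Irreducible p := by
  have hu : ∀ q : F[X], IsUnit (q.scaleRoots a) ↔ IsUnit q := by
    intro q
    rw [Polynomial.isUnit_iff_degree_eq_zero, Polynomial.isUnit_iff_degree_eq_zero,
      Polynomial.degree_scaleRoots]
  rw [irreducible_iff]
  refine ⟨fun hp => h.not_isUnit ((hu p).2 hp), fun u v huv => ?_⟩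
  have h1 : p.scaleRoots a = u.scaleRoots a * v.scaleRoots a := by
    rw [huv, Polynomial.mul_scaleRoots_of_noZeroDivisors]
  rcases h.isUnit_or_isUnit h1 with h2 | h2
  · exact Or.inl ((hu u).1 h2)
  · exact Or.inr ((hu v).1 h2)

variable {k K : Type} [Field k] [Field K] [Algebra k K] {G : Geo k K} {g m : ℕ} {D : Data G g}

theorem irr_fK {f : G.A[X]} (hf : Fam₀ D m f) : Irreducible (G.fK f) := by
  classical
  have ht : G.t ≠ 0 := G.t_ne
  have := fracB G
  obtain ⟨M, hM⟩ := Ideal.exists_maximal G.B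
  have htM : G.ti ∈ M := G.rad M hM
  -- the coefficients
  have hb : ∀ j ≤ 2 * g + 1, ∃ b : G.B,
      (G.t⁻¹ ^ (2 * m)) ^ (2 * g + 1 - j) * (f.coeff j : K) =
        (D.φ.coeff j : K) + G.t⁻¹ * (b : K) := by
    intro j hj
    have h1 := hf.lead j hj
    change G.t ^ (-((2 * m * (2 * g + 1 - j : ℕ) : ℤ) - 1)) *
      ((f.coeff j : K) - G.t ^ (2 * m * (2 * g + 1 - j)) * (D.φ.coeff j : K)) ∈ G.B at h1
    refine ⟨⟨_, h1⟩, ?_⟩
    have h2 : G.t ^ (-((2 * m * (2 * g + 1 - j : ℕ) : ℤ) - 1)) =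
        G.t * (G.t⁻¹ ^ (2 * m)) ^ (2 * g + 1 - j) := by
      rw [← pow_mul, inv_pow, neg_sub, sub_eq_add_neg, zpow_add₀ ht, zpow_one, zpow_neg]
      congr 2
      rw [← zpow_natCast]
      congr 1
    have h3 : (G.t⁻¹ ^ (2 * m)) ^ (2 * g + 1 - j) * G.t ^ (2 * m * (2 * g + 1 - j)) = 1 := by
      rw [← pow_mul, ← mul_pow, inv_mul_cancel₀ ht, one_pow]
    simp only
    rw [h2]
    have h4 : G.t⁻¹ * (G.t * (G.t⁻¹ ^ (2 * m)) ^ (2 * g + 1 - j) *
        ((f.coeff j : K) - G.t ^ (2 * m * (2 * g + 1 - j)) * (D.φ.coeff j : K))) =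
        (G.t⁻¹ * G.t) * ((G.t⁻¹ ^ (2 * m)) ^ (2 * g + 1 - j) * (f.coeff j : K) -
          ((G.t⁻¹ ^ (2 * m)) ^ (2 * g + 1 - j) * G.t ^ (2 * m * (2 * g + 1 - j))) *
            (D.φ.coeff j : K)) := by ring
    rw [h4, h3, inv_mul_cancel₀ ht]
    ring
  choose! b hb using hb
  set r : G.B[X] := ∑ j ∈ Finset.range (2 * g + 1), C (b j) * X ^ j with hr
  have hrc : ∀ i, r.coeff i = if i < 2 * g + 1 then b i else 0 := by
    intro i
    rw [hr, Polynomial.finsetSum_coeff]
    simp only [Polynomial.coeff_C_mul, Polynomial.coeff_X_pow, mul_ite, mul_one, mul_zero]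
    rw [Finset.sum_ite_eq]
    simp only [Finset.mem_range]
  have hrdeg : r.degree < (2 * g + 1 : ℕ) := by
    rw [Polynomial.degree_lt_iff_coeff_zero]
    intro i hi
    rw [hrc, if_neg (by omega)]
  set h : G.B[X] := D.φ + C G.ti * r with hh
  have hφd : D.φ.degree = (2 * g + 1 : ℕ) := by
    rw [Polynomial.degree_eq_natDegree D.monic.ne_zero, D.deg]
  have hmon : h.Monic := by
    refine D.monic.add_of_left ?_
    rw [hφd]
    refine lt_of_le_of_lt ?_ hrdeg
    by_cases h0 : G.ti = 0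
    · rw [h0]; simp
    · rw [Polynomial.degree_C_mul h0]
  have hmk : h.map (Ideal.Quotient.mk M) = D.φ.map (Ideal.Quotient.mk M) := by
    rw [hh, Polynomial.map_add, Polynomial.map_mul, Polynomial.map_C,
      Ideal.Quotient.eq_zero_iff_mem.2 htM]
    simp
  have hirr : Irreducible h := by
    have := hM.isPrime
    refine Polynomial.Monic.irreducible_of_irreducible_map (Ideal.Quotient.mk M) h hmon ?_
    rw [hmk]
    exact D.irr M hM
  have hirr2 : Irreducible (h.map (algebraMap G.B K)) :=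
    (Polynomial.Monic.irreducible_iff_irreducible_map_fraction_map (K := K) hmon).1 hirr
  have hfd : (G.fK f).natDegree = 2 * g + 1 := by
    rw [hf.monic.natDegree_map]; exact hf.deg
  have hta : (G.t⁻¹ ^ (2 * m)) ≠ 0 := pow_ne_zero _ (inv_ne_zero ht)
  apply irr_scale hta
  convert hirr2 using 1
  ext i
  rw [Polynomial.coeff_scaleRoots, hfd, Polynomial.coeff_map, Polynomial.coeff_map, hh,
    Polynomial.coeff_add, Polynomial.coeff_C_mul, hrc]
  have hφK : ∀ x : G.B, algebraMap G.B K x = (x : K) := fun _ => rfl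
  have hfK : ∀ x : G.A, algebraMap G.A K x = (x : K) := fun _ => rfl
  rw [hφK, hfK]
  by_cases hi : i < 2 * g + 1
  · rw [if_pos hi, mul_comm, hb i hi.le]
    rfl
  · rw [if_neg hi]
    by_cases hi2 : i = 2 * g + 1
    · have h1 : f.coeff i = 1 := by
        rw [hi2, ← hf.deg]; exact hf.monic
      have h2 : D.φ.coeff i = 1 := by
        rw [hi2, ← D.deg]; exact D.monic
      rw [h1, h2, hi2]
      simp
    · have h1 : f.coeff i = 0 := by
        apply Polynomial.coeff_eq_zero_of_natDegree_lt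
        rw [hf.deg]; omega
      have h2 : D.φ.coeff i = 0 := by
        apply Polynomial.coeff_eq_zero_of_natDegree_lt
        rw [D.deg]; omega
      rw [h1, h2]
      simp

end Pool.Agent.GBC
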