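import Pool.Agent.Lib.GBC.G.Defs

/-!
Module G.LocG of GBC. The completion at a place: values, the residue field.

PROOF. `locK_one`: value `≤ 1` by `mem_iff`, not `< 1` by `lt_iff`; `locK_le`: for `b ≠ 0` apply `mem_iff`
to `a / b` (`ValuationSubring.valuation_le_one_iff`, `map_div₀`, `div_le_one₀`); `b = 0`: both sides say
`a = 0`. `locK_pi`: see `loc_pi` in `Pool/Agent/Lib/BSDP/D/Res.lean`: `v ϖ < 1` gives `ϖ = pi * y`,
`y ∈ O` (`pi_gen`), `v ϖ ≤ v pi`; there is `a ∈ K` with `v (pi - a) < v pi` (`dense`), so `v a = v pi < 1`,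
`a` is in the maximal ideal of `w.ring`, a multiple of `ϖ` (`Irreducible.maximalIdeal_eq`), so
`v a ≤ v ϖ` (`locK_le`).
`exists_resK`: the map `w.ring → O`, `a ↦ toCompletion a` (`RingHom.codRestrict`) is local
(`locK_one`, `ValuationSubring.valuation_eq_one_iff`); `ψ = IsLocalRing.ResidueField.map`. Injective: fields.
Surjective: for `u ∈ O` `dense` with `c = 1` gives `a ∈ K` with `v (u - a) < 1`, so `a ∈ w.ring`
(`mem_iff`), and the residues agree (see the end of the proof of `exists_aux` in `HYP/F/Comp.lean`).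
-/

set_option autoImplicit false

open Polynomial

namespace Pool.Agent.GBC

open Pool.Agent.BSDP Pool.Agent.BSDFF Pool.Agent.HYP

variable {k K : Type} [Field k] [Field K] [Algebra k K] {w : Place k K} (L : LocK w)

theorem locK_mem {a : K} (h : a ∈ w.ring) : w.toCompletion a ∈ L.O := (L.mem_iff a).2 h

theorem locK_one {a : K} (h : w.ring.valuation a = 1) :
    L.O.valuation (w.toCompletion a) = 1 := by
  have h1 : a ∈ w.ring := (w.ring.valuation_le_one_iff a).1 h.le
  have h2 := (L.O.valuation_le_one_iff _).2 (locK_mem L h1)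
  refine le_antisymm h2 (not_lt.1 fun h3 => ?_)
  have h4 := (L.lt_iff a).1 h3
  rw [h] at h4
  exact lt_irrefl _ h4

theorem locK_le {a b : K} : L.O.valuation (w.toCompletion a) ≤ L.O.valuation (w.toCompletion b) ↔
    w.ring.valuation a ≤ w.ring.valuation b := by
  by_cases hb : b = 0
  · subst hb
    rw [map_zero, map_zero, map_zero, le_zero_iff, le_zero_iff, Valuation.zero_iff,
      Valuation.zero_iff, map_eq_zero]
  · have hb1 : w.ring.valuation b ≠ 0 := (Valuation.ne_zero_iff _).2 hb
    have hb2 : L.O.valuation (w.toCompletion b) ≠ 0 :=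
      (Valuation.ne_zero_iff _).2 ((map_ne_zero w.toCompletion).2 hb)
    rw [← div_le_one₀ (zero_lt_iff.2 hb1), ← div_le_one₀ (zero_lt_iff.2 hb2), ← map_div₀,
      ← map_div₀, ← map_div₀, ValuationSubring.valuation_le_one_iff,
      ValuationSubring.valuation_le_one_iff, L.mem_iff]

theorem locK_pi {ϖ : w.ring} (h : Irreducible ϖ) :
    L.O.valuation (w.toCompletion (ϖ : K)) = L.O.valuation L.pi := by
  have hϖ1 : w.ring.valuation (ϖ : K) < 1 :=
    (w.ring.valuation_lt_one_iff ϖ).1 ((IsLocalRing.mem_maximalIdeal _).2 h.not_isUnit)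
  apply le_antisymm
  · obtain ⟨y, hy, h1⟩ := (L.pi_gen _).1 ((L.lt_iff _).2 hϖ1)
    rw [h1, map_mul]
    exact mul_le_of_le_one_right' ((L.O.valuation_le_one_iff _).2 hy)
  · obtain ⟨a, ha⟩ := L.dense L.pi L.pi L.pi_ne
    have h1 := Valuation.map_sub_eq_of_lt_left _ ha
    rw [sub_sub_cancel] at h1
    have h2 : w.ring.valuation a < 1 := by
      rw [← L.lt_iff, h1]
      exact (L.pi_gen L.pi).2 ⟨1, one_mem _, (mul_one _).symm⟩
    have hmem : a ∈ w.ring := (w.ring.valuation_le_one_iff a).1 h2.le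
    have h3 : (⟨a, hmem⟩ : w.ring) ∈ IsLocalRing.maximalIdeal w.ring :=
      (w.ring.valuation_lt_one_iff _).2 h2
    rw [h.maximalIdeal_eq, Ideal.mem_span_singleton] at h3
    obtain ⟨b, hb⟩ := h3
    have h4 : a = (ϖ : K) * (b : K) := congrArg Subtype.val hb
    rw [← h1, locK_le, h4, map_mul]
    exact mul_le_of_le_one_right' (w.ring.valuation_le_one b)

theorem exists_resK : ∃ ψ : IsLocalRing.ResidueField w.ring →+* IsLocalRing.ResidueField L.O,
    Function.Bijective ψ ∧ ∀ a : w.ring, ψ (IsLocalRing.residue w.ring a) =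
      IsLocalRing.residue L.O ⟨w.toCompletion (a : K), locK_mem L a.2⟩ := by
  let φ : w.ring →+* L.O :=
    (w.toCompletion.comp w.ring.subtype).codRestrict L.O.toSubring (fun a => locK_mem L a.2)
  have hφ : ∀ a : w.ring, ((φ a : L.O) : w.ring.valuation.Completion) =
      w.toCompletion (a : K) := fun a => rfl
  have hloc : IsLocalHom φ := by
    refine ⟨fun a ha => ?_⟩
    have h3 := (L.O.valuation_eq_one_iff _).mp ha
    rw [hφ] at h3
    refine (w.ring.valuation_eq_one_iff _).mpr ?_
    refine le_antisymm (w.ring.valuation_le_one a) (not_lt.1 fun h4 => ?_)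
    have h5 := (L.lt_iff _).2 h4
    rw [h3] at h5
    exact lt_irrefl _ h5
  refine ⟨IsLocalRing.ResidueField.map φ, ⟨RingHom.injective _, ?_⟩, fun a => ?_⟩
  · intro y
    obtain ⟨x, rfl⟩ := IsLocalRing.residue_surjective y
    obtain ⟨a, ha⟩ := L.dense (x : w.ring.valuation.Completion) 1 one_ne_zero
    rw [map_one] at ha
    have h1 : w.toCompletion a ∈ L.O := by
      have h2 : (x : w.ring.valuation.Completion) - w.toCompletion a ∈ L.O :=
        (L.O.valuation_le_one_iff _).1 ha.le
      have h3 := sub_mem x.2 h2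
      rwa [sub_sub_cancel] at h3
    have h2 : a ∈ w.ring := (L.mem_iff a).1 h1
    refine ⟨IsLocalRing.residue w.ring ⟨a, h2⟩, ?_⟩
    rw [IsLocalRing.ResidueField.map_residue, eq_comm, ← sub_eq_zero, ← map_sub,
      IsLocalRing.residue_eq_zero_iff, L.O.valuation_lt_one_iff]
    exact ha
  · rw [IsLocalRing.ResidueField.map_residue]
    rfl

end Pool.Agent.GBC
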