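import Pool.Agent.Lib.GBC.G.DedP
import Pool.Agent.Lib.GBC.G.LocG
import Pool.Agent.Lib.HYP.F.UnrC
import Pool.Agent.Lib.HYP.G.Tw

/-!
Module G.ModInf of GBC. At a place which is not finite an element of square norm is a square.

ADAPTATION of `infty_model`, `isSquare_infty` in `Pool/Agent/Lib/HYP/F/Inf.lean`.

PROOF. There is `a ∈ A`, `a ∉ w.ring`; by `places` `B ⊆ w.ring`. `v (t⁻¹) < 1`: otherwise `v (t⁻¹) = 1`
(`t⁻¹ ∈ B`), and by `exh` `t⁻¹ ^ n a ∈ B` for some `n`, so `a ∈ w.ring`. `fracB`: by `exh` `K` is the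
field of fractions of `B`. `m = {b ∈ B | v b < 1}` is a maximal ideal of the principal ideal domain `B`
(`place_approx` with `R = B`: `B → κ (w)` is surjective with kernel `m`; `w.ring ≠ ⊤`, it is a DVR;
`RingHom.ker_isMaximal_of_surjective`), and `φ` is irreducible modulo `m` (`irr`), so it is
irreducible over `κ (w)` (`RingHom.quotientKerEquivOfSurjective`, `Polynomial.mapEquiv`,
`MulEquiv.irreducible_iff`), and over `ResidueField L.O` (`exists_resK`). The coefficient of `x ^ j` of the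
scaled polynomial is the image of `e_j = f_j t⁻¹ ^ (2 m (n - j))`, `n = 2 g + 1`, and by `lead`
`e_j - φ_j ∈ t⁻¹ B` (multiply by `t⁻¹ ^ (2 m (n - j))`; `G.M y` is `{x | t ^ (-y) x ∈ B}`), so `e_j ∈ w.ring`
and `v (e_j - φ_j) < 1`. (For `j > n` both are `0`.) So the scaled polynomial is `h.map _` with `h` monic and
`h.map residue = (φ mod m) mapped to ResidueField L.O`.
`isSquare_Inf`: `isSquare_of_norm_odd` after `dn`, as in `isSquare_infty`.
-/

set_option autoImplicit false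

open Polynomial

namespace Pool.Agent.GBC

open Pool.Agent.BSDP Pool.Agent.BSDFF Pool.Agent.HYP

variable {k K : Type} [Field k] [Field K] [Algebra k K] {G : Geo k K} {g m : ℕ} {D : Data G g}
  {f : G.A[X]}

theorem fracB (G : Geo k K) : IsFractionRing G.B K := by
  have : FaithfulSMul G.B K := by
    rw [faithfulSMul_iff_algebraMap_injective]
    exact Subtype.val_injective
  refine IsFractionRing.of_field (R := G.B) (K := K) fun z => ?_
  obtain ⟨n, hn⟩ := G.exh z
  refine ⟨⟨_, hn⟩, ⟨G.t⁻¹ ^ n, pow_mem G.inv_mem n⟩, ?_⟩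
  have h0 : (G.t⁻¹ : K) ^ n ≠ 0 := pow_ne_zero _ (inv_ne_zero G.t_ne)
  change z = G.t⁻¹ ^ n * z / G.t⁻¹ ^ n
  rw [mul_div_cancel_left₀ z h0]

private theorem minf_B (w : Place k K) (hw : ¬ ∀ a ∈ G.A, a ∈ w.ring) : ∀ b ∈ G.B, b ∈ w.ring :=
  (G.places w).resolve_left hw

private theorem minf_t (w : Place k K) (hw : ¬ ∀ a ∈ G.A, a ∈ w.ring) :
    w.ring.valuation (G.t⁻¹) < 1 := by
  have hB := minf_B w hw
  have h1 : w.ring.valuation (G.t⁻¹) ≤ 1 := (w.ring.valuation_le_one_iff _).2 (hB _ G.inv_mem)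
  refine lt_of_le_of_ne h1 fun h2 => hw fun a _ => ?_
  obtain ⟨n, hn⟩ := G.exh a
  have h3 := (w.ring.valuation_le_one_iff _).2 (hB _ hn)
  rw [map_mul, map_pow, h2, one_pow, one_mul] at h3
  exact (w.ring.valuation_le_one_iff _).1 h3

private theorem minf_coeff (hf : Fam₀ D m f) (w : Place k K) (hw : ¬ ∀ a ∈ G.A, a ∈ w.ring)
    (j : ℕ) : w.ring.valuation ((f.coeff j : K) * (G.t⁻¹) ^ (2 * m * (2 * g + 1 - j)) -
      (D.φ.coeff j : K)) < 1 := by
  by_cases hj : j ≤ 2 * g + 1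
  · have h1 := hf.lead j hj
    have h2 : G.t ^ (-((2 * m * ((2 * g + 1 - j : ℕ) : ℤ)) - 1)) *
        ((f.coeff j : K) - G.t ^ (2 * m * (2 * g + 1 - j)) * (D.φ.coeff j : K)) ∈ G.B := h1
    have h3 : (f.coeff j : K) * (G.t⁻¹) ^ (2 * m * (2 * g + 1 - j)) - (D.φ.coeff j : K) =
        G.t⁻¹ * (G.t ^ (-((2 * m * ((2 * g + 1 - j : ℕ) : ℤ)) - 1)) *
        ((f.coeff j : K) - G.t ^ (2 * m * (2 * g + 1 - j)) * (D.φ.coeff j : K))) := by
      have h4 : (-((2 * m * ((2 * g + 1 - j : ℕ) : ℤ)) - 1) : ℤ) =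
          -(((2 * m * (2 * g + 1 - j) : ℕ)) : ℤ) + 1 := by
        push_cast
        ring
      rw [h4, zpow_add₀ G.t_ne, zpow_one, zpow_neg, zpow_natCast, inv_pow]
      have h5 : G.t ^ (2 * m * (2 * g + 1 - j)) ≠ 0 := pow_ne_zero _ G.t_ne
      have h6 := G.t_ne
      field_simp
    rw [h3, map_mul]
    have h7 := (w.ring.valuation_le_one_iff _).2 (minf_B w hw _ h2)
    calc _ ≤ w.ring.valuation (G.t⁻¹) * 1 := mul_le_mul_right h7 _
      _ < 1 := by rw [mul_one]; exact minf_t w hw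
  · have h1 : f.coeff j = 0 := Polynomial.coeff_eq_zero_of_natDegree_lt (by rw [hf.deg]; omega)
    have h2 : D.φ.coeff j = 0 := Polynomial.coeff_eq_zero_of_natDegree_lt (by rw [D.deg]; omega)
    rw [h1, h2]
    simp

theorem modelInf (hf : Fam₀ D m f) (w : Place k K) (hw : ¬ ∀ a ∈ G.A, a ∈ w.ring) (L : LocK w) :
    ∃ h : L.O[X], h.Monic ∧ h.natDegree = 2 * g + 1 ∧
      Irreducible (h.map (IsLocalRing.residue L.O)) ∧
      ((G.fK f).map w.toCompletion).scaleRoots (w.toCompletion (G.t⁻¹ ^ (2 * m))) =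
        h.map (algebraMap L.O w.ring.valuation.Completion) := by
  have hB := minf_B w hw
  have hval := minf_coeff hf w hw
  set τ := w.toCompletion with hτ
  set P := ((G.fK f).map τ).scaleRoots (τ ((G.t⁻¹ : K) ^ (2 * m))) with hP
  have hfm : ((G.fK f).map τ).Monic := (hf.monic.map _).map _
  have hfd : ((G.fK f).map τ).natDegree = 2 * g + 1 := by
    rw [Polynomial.natDegree_map, hf.monic.natDegree_map, hf.deg]
  have hPm : P.Monic := (Polynomial.monic_scaleRoots_iff _).2 hfm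
  have hPd : P.natDegree = 2 * g + 1 := by rw [hP, Polynomial.natDegree_scaleRoots, hfd]
  set e : ℕ → K := fun j => (f.coeff j : K) * (G.t⁻¹) ^ (2 * m * (2 * g + 1 - j)) with he
  have hcoeff : ∀ j, P.coeff j = τ (e j) := by
    intro j
    rw [hP, Polynomial.coeff_scaleRoots, hfd, Polynomial.coeff_map, Polynomial.coeff_map, he, map_mul,
      ← map_pow, ← pow_mul]
    rfl
  have hφ : ∀ j, τ ((D.φ.coeff j : G.B) : K) ∈ L.O := fun j =>
    (L.mem_iff _).2 (hB _ (D.φ.coeff j).2)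
  have hmem : ∀ j, τ (e j) ∈ L.O := by
    intro j
    have h1 : L.O.valuation (τ (e j - (D.φ.coeff j : K))) < 1 := (L.lt_iff _).2 (hval j)
    have h2 := (L.O.valuation_le_one_iff _).1 h1.le
    have h3 := add_mem h2 (hφ j)
    rwa [← map_add, sub_add_cancel] at h3
  have hlift : P ∈ Polynomial.lifts (algebraMap L.O w.ring.valuation.Completion) := by
    rw [Polynomial.lifts_iff_coeff_lifts]
    intro j
    rw [hcoeff]
    exact ⟨⟨_, hmem j⟩, rfl⟩
  obtain ⟨h, hmap, hdeg, hmon⟩ := Polynomial.lifts_and_natDegree_eq_and_monic hlift hPm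
  refine ⟨h, hmon, hdeg.trans hPd, ?_, hmap.symm⟩
  -- the residue field
  obtain ⟨ψ, hψ, hψr⟩ := exists_resK L
  let ι : G.B →+* w.ring := (algebraMap G.B K).codRestrict w.ring.toSubring fun b => hB b b.2
  let π : G.B →+* IsLocalRing.ResidueField w.ring := (IsLocalRing.residue w.ring).comp ι
  have hfrac : IsFractionRing G.B K := fracB G
  have hV : w.ring ≠ ⊤ := by
    intro h1
    have h2 : (G.t : K) ∈ w.ring := by
      rw [h1]
      trivial
    have h3 := (w.ring.valuation_le_one_iff _).2 h2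
    have h4 := minf_t w hw
    have h5 : w.ring.valuation (G.t : K) * w.ring.valuation (G.t⁻¹) = 1 := by
      rw [← map_mul, mul_inv_cancel₀ G.t_ne, map_one]
    have h6 : w.ring.valuation (G.t : K) * w.ring.valuation (G.t⁻¹) < 1 :=
      calc _ ≤ 1 * w.ring.valuation (G.t⁻¹) := mul_le_mul_left h3 _
        _ < 1 := by rw [one_mul]; exact h4
    exact absurd h5 h6.ne
  have hπ : Function.Surjective π := by
    intro y
    obtain ⟨x, rfl⟩ := IsLocalRing.residue_surjective y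
    obtain ⟨b, hb⟩ := place_approx (R := G.B) w.ring (fun b => hB b b.2) hV x.2
    refine ⟨b, ?_⟩
    change IsLocalRing.residue w.ring (ι b) = _
    rw [eq_comm, ← sub_eq_zero, ← map_sub, IsLocalRing.residue_eq_zero_iff,
      w.ring.valuation_lt_one_iff]
    exact hb
  have hmax : (RingHom.ker π).IsMaximal := RingHom.ker_isMaximal_of_surjective π hπ
  let E₁ : (G.B ⧸ RingHom.ker π) ≃+* IsLocalRing.ResidueField w.ring :=
    RingHom.quotientKerEquivOfSurjective hπ
  let E₂ : IsLocalRing.ResidueField w.ring ≃+* IsLocalRing.ResidueField L.O :=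
    RingEquiv.ofBijective ψ hψ
  let E : (G.B ⧸ RingHom.ker π) ≃+* IsLocalRing.ResidueField L.O := E₁.trans E₂
  have hE : ∀ b : G.B, E (Ideal.Quotient.mk (RingHom.ker π) b) =
      IsLocalRing.residue L.O ⟨τ (b : K), locK_mem L (hB b b.2)⟩ := by
    intro b
    change ψ (E₁ (Ideal.Quotient.mk (RingHom.ker π) b)) = _
    have h1 : E₁ (Ideal.Quotient.mk (RingHom.ker π) b) = IsLocalRing.residue w.ring (ι b) :=
      RingHom.quotientKerEquivOfSurjective_apply_mk hπ b
    rw [h1, hψr]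
    rfl
  have hmr : h.map (IsLocalRing.residue L.O) =
      Polynomial.mapEquiv E (D.φ.map (Ideal.Quotient.mk (RingHom.ker π))) := by
    ext j
    rw [Polynomial.mapEquiv_apply, Polynomial.coeff_map, Polynomial.coeff_map, Polynomial.coeff_map]
    change _ = E (Ideal.Quotient.mk (RingHom.ker π) (D.φ.coeff j))
    rw [hE, ← sub_eq_zero, ← map_sub, IsLocalRing.residue_eq_zero_iff, L.O.valuation_lt_one_iff]
    have h1 : ((h.coeff j : L.O) : w.ring.valuation.Completion) = τ (e j) := by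
      rw [← hcoeff, ← hmap, Polynomial.coeff_map]
      rfl
    change L.O.valuation (((h.coeff j : L.O) : w.ring.valuation.Completion) -
      τ ((D.φ.coeff j : G.B) : K)) < 1
    rw [h1, ← map_sub]
    exact (L.lt_iff _).2 (hval j)
  rw [hmr, MulEquiv.irreducible_iff]
  exact D.irr _ hmax

theorem isSquare_Inf (hf : Fam₀ D m f) (w : Place k K) (hw : ¬ ∀ a ∈ G.A, a ∈ w.ring) (L : LocK w)
    (hC : Complete L.toLoc) (c : AdjoinRoot ((G.fK f).map w.toCompletion)) (hc : SqNorm c) :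
    IsSquare c := by
  obtain ⟨h, hm, hd, hi, he⟩ := modelInf hf w hw L
  have hfm : ((G.fK f).map w.toCompletion).Monic := (hf.monic.map _).map _
  have hD : w.toCompletion ((G.t⁻¹ : K) ^ (2 * m)) ≠ 0 :=
    (_root_.map_ne_zero _).2 (pow_ne_zero _ (inv_ne_zero G.t_ne))
  obtain ⟨c', rfl⟩ := (dn_bijective hD he.symm).2 c
  rw [isSquare_dn hD he.symm]
  rw [sqNorm_dn hfm hD he.symm] at hc
  exact isSquare_of_norm_odd L.toLoc hC hm hi ⟨g, hd⟩ c' hc

end Pool.Agent.GBC
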