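import Pool.Agent.Lib.GBC.G.RegA
import Pool.Agent.Lib.HYP.F.UnrC

/-!
Module G.ModN of GBC. At a finite place which divides the conductor `N` an element of square norm is a
square.

PROOF. `modelN`: `h = f.map (toOA w L)`; by `cong` and `N ≤ prime w = ker (res w)`
`f.map (res w) = f₀.map (res w)`. `prime w` is maximal (`prime_maxA`). `irr₀`
for `prime w` and `A ⧸ prime w ≃ κ w` (`RingHom.quotientKerEquivOfSurjective`, or the bijection of
`A ⧸ ker` with `ResidueField L.O`; `res w` is surjective by `place_approx`) give: `f₀.map (res w)` is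
irreducible (`Polynomial.mapEquiv`, `MulEquiv.irreducible_iff`), and so is its image under the bijection
`ψ` of `exists_resA`, which is `h.map residue`.
`isSquare_N`: `isSquare_of_norm_odd` of `HYP/F/UnrC.lean`.
-/

set_option autoImplicit false

open Polynomial

namespace Pool.Agent.GBC

open Pool.Agent.BSDP Pool.Agent.BSDFF Pool.Agent.HYP

variable {k K : Type} [Field k] [Field K] [Algebra k K] {G : Geo k K} {g m : ℕ} {D : Data G g}
  {f : G.A[X]}

private theorem mn_ne_top (w : Place k K) : w.ring ≠ ⊤ := by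
  intro h
  obtain ⟨ϖ, hϖ⟩ := IsDiscreteValuationRing.exists_irreducible w.ring
  have h0 : (ϖ : K) ≠ 0 := fun h0 => hϖ.ne_zero (Subtype.ext h0)
  have h1 : (ϖ : K)⁻¹ ∈ w.ring := (h.symm ▸ ValuationSubring.mem_top _ :)
  have h2 : ϖ * (⟨(ϖ : K)⁻¹, h1⟩ : w.ring) = 1 := Subtype.ext (mul_inv_cancel₀ h0)
  exact hϖ.not_isUnit (IsUnit.of_mul_eq_one _ h2)

private theorem mn_surj (w : G.FP) : Function.Surjective (G.res w) := by
  intro y
  obtain ⟨x, rfl⟩ := IsLocalRing.residue_surjective y
  obtain ⟨a, ha⟩ := place_approx (R := G.A) w.1.ring (fun a => w.2 a a.2) (mn_ne_top w.1) x.2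
  refine ⟨a, ?_⟩
  have h1 : G.res w a = IsLocalRing.residue w.1.ring ⟨(a : K), w.2 a a.2⟩ := rfl
  rw [h1]
  refine (Ideal.Quotient.eq (I := IsLocalRing.maximalIdeal w.1.ring)).2 ?_
  have h2 : (⟨(a : K), w.2 a a.2⟩ : w.1.ring) - x ∈ IsLocalRing.maximalIdeal w.1.ring := by
    rw [ValuationSubring.valuation_lt_one_iff]
    have h3 : (((⟨(a : K), w.2 a a.2⟩ : w.1.ring) - x : w.1.ring) : K) = (a : K) - x := rfl
    rw [h3, Valuation.map_sub_swap]
    exact ha
  exact h2

private theorem mn_irr {R S : Type} [CommRing R] [CommRing S] [IsDomain R] [IsDomain S]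
    (e : R ≃+* S) {p : R[X]}
    (hp : Irreducible p) : Irreducible (p.map (e : R →+* S)) :=
  (MulEquiv.irreducible_iff (Polynomial.mapEquiv e)).2 hp

theorem modelN (hf : Fam₀ D m f) (w : G.FP) (hN : D.N ≤ G.prime w) (L : LocK w.1) :
    ∃ h : L.O[X], h.Monic ∧ h.natDegree = 2 * g + 1 ∧
      Irreducible (h.map (IsLocalRing.residue L.O)) ∧
      (G.fK f).map w.1.toCompletion =
        h.map (algebraMap L.O w.1.ring.valuation.Completion) := by
  refine ⟨f.map (G.toOA w L), hf.monic.map _, ?_, ?_, ?_⟩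
  · rw [hf.monic.natDegree_map, hf.deg]
  · obtain ⟨ψ, hψ, hψa⟩ := exists_resA G w L
    have h1 : (f.map (G.toOA w L)).map (IsLocalRing.residue L.O) = (f.map (G.res w)).map ψ := by
      ext i
      rw [coeff_map, coeff_map, coeff_map, coeff_map, hψa]
    have h2 : f.map (G.res w) = D.f₀.map (G.res w) := by
      ext i
      rw [coeff_map, coeff_map]
      have h3 : f.coeff i - D.f₀.coeff i ∈ RingHom.ker (G.res w) := hN (hf.cong i)
      rw [RingHom.mem_ker, map_sub] at h3
      exact sub_eq_zero.1 h3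
    have hmax : (G.prime w).IsMaximal := prime_maxA G w
    haveI : IsDomain (G.A ⧸ G.prime w) := by
      haveI := hmax.isPrime
      infer_instance
    let e : (G.A ⧸ G.prime w) ≃+* G.κ w := RingHom.quotientKerEquivOfSurjective (mn_surj w)
    have he : ∀ a : G.A, e (Ideal.Quotient.mk (G.prime w) a) = G.res w a := fun a => rfl
    have h4 : D.f₀.map (G.res w) =
        (D.f₀.map (Ideal.Quotient.mk (G.prime w))).map (e : (G.A ⧸ G.prime w) →+* G.κ w) := by
      ext i
      rw [coeff_map, coeff_map, coeff_map]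
      exact (he _).symm
    have h5 : Irreducible (D.f₀.map (G.res w)) := by
      rw [h4]
      exact mn_irr e (D.irr₀ _ hmax hN)
    rw [h1, h2]
    exact mn_irr (RingEquiv.ofBijective ψ hψ) h5
  · ext i
    rw [coeff_map, coeff_map, coeff_map, coeff_map]
    rfl

theorem isSquare_N (hf : Fam₀ D m f) (w : G.FP) (hN : D.N ≤ G.prime w) (L : LocK w.1)
    (hC : Complete L.toLoc) (c : AdjoinRoot ((G.fK f).map w.1.toCompletion)) (hc : SqNorm c) :
    IsSquare c := by
  obtain ⟨h, hm, hd, hi, heq⟩ := modelN hf w hN L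
  revert c
  rw [heq]
  intro c hc
  exact isSquare_of_norm_odd L.toLoc hC hm hi (by rw [hd]; exact odd_two_mul_add_one g) c hc

end Pool.Agent.GBC
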