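import Pool.Agent.Lib.GBC.G.DedP
import Pool.Agent.Lib.GBC.G.LocG
import Pool.Agent.Lib.HYP.F.Dict

/-!
Module G.RegA of GBC. Local facts at a finite place: the residue field, coefficients, regularity.

ADAPTATION of `Pool/Agent/Lib/HYP/F/RegT.lean` (copy `approx`, `coef_add`, `coef_mul`, `coef_C`, `reg_loc`):
`mem_primeA`: `res w a = 0` iff `a` is in the maximal ideal of `w.ring`
(`IsLocalRing.residue_eq_zero_iff`, `ValuationSubring.valuation_lt_one_iff`).
`prime_maxA`: `res w` is surjective onto the field `κ w` (`place_approx` with `R = A`; `w.ring ≠ ⊤`, it is a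
DVR), `RingHom.ker_isMaximal_of_surjective`.
`exists_resA`: `exists_resK` for `L`, composed with the definition of `res`.
`dense2A`: every `u ∈ O` is `a + pi ^ 2 y`: first `dense` for `c = pi ^ 2`: `x ∈ K` with
`v (u - x) < v (pi ^ 2)`, so `x ∈ w.ring`; then it is enough to approximate `x ∈ w.ring` modulo
`ϖ ^ 2` by elements of `A`: `place_approx` (`w.ring ≠ ⊤`: it is a DVR): `x = a₀ + ϖ x₁`; `ϖ = a₁ / s`,
`v s = 1` (`place_frac`), `v a₁ = v ϖ`, so `ϖ x₁ = a₁ x₂`, `x₂ ∈ w.ring`, `x₂ = a₂ + ϖ x₃` with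
`x₃ ∈ w.ring`: `x = a₀ + a₁ a₂ + a₁ ϖ x₃`; the values of `ϖ`, `a₁` in the completion are `v pi` (`locK_pi`).
`reg_locA`: as `reg_loc` with `π` replaced by the element `a₁ ∈ A` of value `v ϖ`: one gets
`f - C a₁ * p' * b' - p' ^ 2 * c'` with coefficients in `A` of value `≤ v (pi ^ 2)`, i.e. in
`prime w ^ 2` (`mem_pow_iff`, `locK_le`), so it is in `(P.map C) ^ 2` (`Ideal.mem_map_C_iff`,
`Ideal.map_pow`), `P = prime w`; `C a₁ * p' * b' ∈ P.map C * (p')`, and `f ∈ (P.map C ⊔ (p')) ^ 2`, a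
contradiction with `RegI`.
-/

set_option autoImplicit false

open Polynomial

namespace Pool.Agent.GBC

open Pool.Agent.BSDP Pool.Agent.BSDFF Pool.Agent.HYP

variable {k K : Type} [Field k] [Field K] [Algebra k K] (G : Geo k K) (w : G.FP) (L : LocK w.1)

theorem mem_primeA (a : G.A) : a ∈ G.prime w ↔ w.1.ring.valuation (a : K) < 1 := by
  rw [Geo.prime, RingHom.mem_ker]
  change IsLocalRing.residue w.1.ring ⟨(a : K), w.2 a a.2⟩ = 0 ↔ _
  rw [IsLocalRing.residue_eq_zero_iff]
  exact ValuationSubring.valuation_lt_one_iff w.1.ring ⟨(a : K), w.2 a a.2⟩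

private theorem RegA_mem (a : G.A) : algebraMap G.A K a ∈ w.1.ring := w.2 a a.2

private theorem RegA_ne_top {w : Place k K} : w.ring ≠ ⊤ := by
  intro htop
  obtain ⟨ϖ, hϖ⟩ := IsDiscreteValuationRing.exists_irreducible w.ring
  have h0 : (ϖ : K) ≠ 0 := fun h => hϖ.ne_zero (Subtype.ext h)
  have h1 : (ϖ : K)⁻¹ ∈ w.ring := htop.ge (ValuationSubring.mem_top _)
  exact hϖ.not_isUnit (IsUnit.of_mul_eq_one ⟨(ϖ : K)⁻¹, h1⟩ (Subtype.ext (mul_inv_cancel₀ h0)))

theorem prime_maxA : (G.prime w).IsMaximal := by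
  refine RingHom.ker_isMaximal_of_surjective (G.res w) ?_
  intro y
  obtain ⟨x, rfl⟩ := IsLocalRing.residue_surjective y
  obtain ⟨a, ha⟩ := place_approx w.1.ring (RegA_mem G w) RegA_ne_top x.2
  refine ⟨a, ?_⟩
  change IsLocalRing.residue w.1.ring ⟨(a : K), w.2 a a.2⟩ = _
  rw [eq_comm, ← sub_eq_zero, ← map_sub, IsLocalRing.residue_eq_zero_iff,
    w.1.ring.valuation_lt_one_iff]
  exact ha

theorem exists_resA : ∃ ψ : G.κ w →+* IsLocalRing.ResidueField L.O,
    Function.Bijective ψ ∧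
      ∀ a : G.A, ψ (G.res w a) = IsLocalRing.residue L.O (G.toOA w L a) := by
  obtain ⟨ψ, h1, h2⟩ := exists_resK L
  exact ⟨ψ, h1, fun a => h2 ⟨(a : K), w.2 a a.2⟩⟩

theorem coef_locA (f : G.A[X]) : Coef L.toLoc ((G.fK f).map w.1.toCompletion) := by
  intro i
  rw [Polynomial.coeff_map, Polynomial.coeff_map]
  exact locK_mem L (RegA_mem G w _)

/-- an element of `A` with the value of the uniformizers -/
private theorem RegA_pi : ∃ (ϖ : w.1.ring) (p : G.A) (e e' : w.1.ring.valuation.Completion),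
    Irreducible ϖ ∧ p ∈ G.prime w ∧ e ∈ L.O ∧ e' ∈ L.O ∧
    w.1.toCompletion (p : K) = L.pi * e ∧ L.pi = w.1.toCompletion (p : K) * e' := by
  obtain ⟨ϖ, hϖ⟩ := IsDiscreteValuationRing.exists_irreducible w.1.ring
  obtain ⟨p, s, hs, hp⟩ := place_frac w.1.ring (RegA_mem G w) ϖ.2
  have hv : w.1.ring.valuation (p : K) = w.1.ring.valuation (ϖ : K) := by
    have h3 : (p : K) = (ϖ : K) * algebraMap G.A K s := hp.symm
    rw [h3, map_mul, hs, mul_one]
  have h1 : L.O.valuation (w.1.toCompletion (p : K)) = L.O.valuation L.pi := by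
    rw [← locK_pi L hϖ]
    exact le_antisymm ((locK_le L).2 hv.le) ((locK_le L).2 hv.ge)
  have h0 : w.1.toCompletion (p : K) ≠ 0 := by
    intro h
    rw [h, map_zero] at h1
    exact L.pi_ne ((Valuation.zero_iff _).1 h1.symm)
  have hp0 := L.pi_ne
  refine ⟨ϖ, p, w.1.toCompletion (p : K) / L.pi, L.pi / w.1.toCompletion (p : K), hϖ, ?_, ?_, ?_,
    ?_, ?_⟩
  · rw [mem_primeA, hv]
    exact (w.1.ring.valuation_lt_one_iff ϖ).1 ((IsLocalRing.mem_maximalIdeal _).2 hϖ.not_isUnit)
  · rw [← ValuationSubring.valuation_le_one_iff, map_div₀, h1]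
    exact div_self_le_one _
  · rw [← ValuationSubring.valuation_le_one_iff, map_div₀, h1]
    exact div_self_le_one _
  · rw [mul_div_cancel₀ _ hp0]
  · rw [mul_div_cancel₀ _ h0]

private theorem RegA_dense (u : w.1.ring.valuation.Completion) (hu : u ∈ L.O) :
    ∃ a : G.A, L.O.valuation (u - w.1.toCompletion (a : K)) < 1 := by
  obtain ⟨x, hx⟩ := L.dense u 1 one_ne_zero
  rw [map_one] at hx
  have h1 : w.1.toCompletion x ∈ L.O := by
    have h2 : u - w.1.toCompletion x ∈ L.O := (L.O.valuation_le_one_iff _).1 hx.le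
    have h3 := sub_mem hu h2
    rwa [sub_sub_cancel] at h3
  obtain ⟨a, ha⟩ := place_approx w.1.ring (RegA_mem G w) RegA_ne_top ((L.mem_iff x).1 h1)
  refine ⟨a, ?_⟩
  have h2 := (L.lt_iff _).2 ha
  rw [map_sub] at h2
  have h3 := L.O.valuation.map_add_lt hx h2
  rw [sub_add_sub_cancel] at h3
  exact h3

theorem dense2A (u : w.1.ring.valuation.Completion) (hu : u ∈ L.O) :
    ∃ (a : G.A) (y : w.1.ring.valuation.Completion), y ∈ L.O ∧
      u = w.1.toCompletion (a : K) + L.pi ^ 2 * y := by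
  obtain ⟨ϖ, q, e, e', -, -, he, he', h1, h2⟩ := RegA_pi G w L
  obtain ⟨p0, h3⟩ := RegA_dense G w L u hu
  obtain ⟨y1, hy1, h4⟩ := (L.pi_gen _).1 h3
  obtain ⟨p1, h5⟩ := RegA_dense G w L (e' * y1) (mul_mem he' hy1)
  obtain ⟨y2, hy2, h6⟩ := (L.pi_gen _).1 h5
  refine ⟨p0 + q * p1, e * y2, mul_mem he hy2, ?_⟩
  have h0 : ((p0 + q * p1 : G.A) : K) = (p0 : K) + (q : K) * (p1 : K) := rfl
  rw [h0, map_add, map_mul]
  have h7 : u = w.1.toCompletion (p0 : K) + L.pi * y1 := by
    rw [← h4]; ring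
  have h8 : e' * y1 = w.1.toCompletion (p1 : K) + L.pi * y2 := by
    rw [← h6]; ring
  have h9 : L.pi * y1 = w.1.toCompletion (q : K) * (e' * y1) := by
    rw [← mul_assoc, ← h2]
  rw [h7, h9, h8, mul_add]
  have h10 : w.1.toCompletion (q : K) * (L.pi * y2) = L.pi ^ 2 * (e * y2) := by
    rw [h1]; ring
  rw [h10]
  ring

private theorem RegA_add {F : Type} [Field F] {L : Loc F} {p q : F[X]} (hp : Coef L p)
    (hq : Coef L q) : Coef L (p + q) := by
  intro i
  rw [coeff_add]
  exact add_mem (hp i) (hq i)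

private theorem RegA_mul {F : Type} [Field F] {L : Loc F} {p q : F[X]} (hp : Coef L p)
    (hq : Coef L q) : Coef L (p * q) := by
  intro i
  rw [coeff_mul]
  exact sum_mem fun x _ => mul_mem (hp _) (hq _)

private theorem RegA_C {F : Type} [Field F] {L : Loc F} {a : F} (ha : a ∈ L.O) :
    Coef L (C a) := by
  intro i
  rw [coeff_C]
  split_ifs
  · exact ha
  · exact zero_mem _

/-- approximation of polynomials modulo `L.pi ^ 2` -/
private theorem RegA_approx (P : (w.1.ring.valuation.Completion)[X])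
    (hP : Coef L.toLoc P) :
    ∃ (P' : G.A[X]) (Q : (w.1.ring.valuation.Completion)[X]), Coef L.toLoc Q ∧
      (∀ i, P.natDegree < i → P'.coeff i = 0) ∧
      P = (G.fK P').map w.1.toCompletion + C (L.pi ^ 2) * Q := by
  choose p y hy h using fun i => dense2A G w L (P.coeff i) (hP i)
  refine ⟨∑ i ∈ Finset.range (P.natDegree + 1), monomial i (p i),
    ∑ i ∈ Finset.range (P.natDegree + 1), monomial i (y i), ?_, ?_, ?_⟩
  · intro i
    rw [finsetSum_coeff]
    refine sum_mem fun j _ => ?_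
    rw [coeff_monomial]
    split_ifs
    · exact hy _
    · exact zero_mem _
  · intro i hi
    rw [finsetSum_coeff]
    refine Finset.sum_eq_zero fun j hj => ?_
    rw [coeff_monomial, if_neg]
    intro hji
    have := Finset.mem_range.1 hj
    omega
  · ext i
    rw [coeff_add, coeff_C_mul, coeff_map, coeff_map, finsetSum_coeff, finsetSum_coeff]
    simp only [coeff_monomial, Finset.sum_ite_eq', Finset.mem_range]
    by_cases hi : i < P.natDegree + 1
    · rw [if_pos hi, if_pos hi]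
      exact h i
    · rw [if_neg hi, if_neg hi, map_zero, map_zero, mul_zero, add_zero]
      exact coeff_eq_zero_of_natDegree_lt (by omega)

theorem reg_locA {f : G.A[X]} (hr : RegI (G.prime w) f) :
    Reg L.toLoc ((G.fK f).map w.1.toCompletion) := by
  intro p a b c hpm hpd hp ha hb hc hf
  obtain ⟨ϖ, q, e, e', hϖ, hq, he, he', h1, h2⟩ := RegA_pi G w L
  set φ := w.1.toCompletion with hφ
  set n := p.natDegree with hn
  -- the monic polynomial
  have hlow : Coef L.toLoc (p - X ^ n) := by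
    intro i
    rw [coeff_sub, coeff_X_pow]
    refine sub_mem (hp i) ?_
    split_ifs
    · exact one_mem _
    · exact zero_mem _
  obtain ⟨p₀, q1, hq1, hd, hp₀⟩ := RegA_approx G w L (p - X ^ n) hlow
  obtain ⟨b', q2, hq2, -, hb'⟩ := RegA_approx G w L (C e' * b) (RegA_mul (RegA_C he') hb)
  obtain ⟨c', q3, hq3, -, hc'⟩ := RegA_approx G w L c hc
  rw [← hφ] at hp₀ hb' hc'
  have hdeg : ∀ i, n ≤ i → p₀.coeff i = 0 := by
    intro i hi
    refine hd i ?_
    have h3 : (p - X ^ n).natDegree < n := by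
      have h4 : (p - X ^ n).degree < p.degree := by
        refine degree_sub_lt_left ?_ hpm.ne_zero ?_
        · rw [degree_X_pow, degree_eq_natDegree hpm.ne_zero]
        · rw [hpm.leadingCoeff, leadingCoeff_X_pow]
      by_cases h5 : p - X ^ n = 0
      · rw [h5, natDegree_zero]
        exact hpd
      · exact natDegree_lt_natDegree h5 h4
    exact h3.trans_le hi
  have hm : (X ^ n + p₀).Monic ∧ (X ^ n + p₀).natDegree = n := by
    have h3 : p₀.degree < (n : ℕ) := by
      rw [degree_lt_iff_coeff_zero]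
      exact hdeg
    refine ⟨monic_X_pow_add h3, ?_⟩
    have h4 : (X ^ n + p₀).degree = (X ^ n : G.A[X]).degree :=
      degree_add_eq_left_of_degree_lt (by rw [degree_X_pow]; exact h3)
    have h5 := natDegree_eq_of_degree_eq h4
    rw [h5, natDegree_X_pow]
  set p' := X ^ n + p₀ with hp'd
  have hp' : p = (G.fK p').map φ + C (L.pi ^ 2) * q1 := by
    have h3 : (G.fK p').map φ = X ^ n + (G.fK p₀).map φ := by
      simp only [hp'd, Geo.fK, Polynomial.map_add, Polynomial.map_pow, Polynomial.map_X]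
    rw [h3, add_assoc, ← hp₀]
    ring
  have key : (G.fK (f - C q * p' * b' - p' ^ 2 * c')).map φ = C (L.pi ^ 2) *
      (a + C (φ (q : K)) * (q1 * (C e' * b) + (G.fK p').map φ * q2) +
        (q1 * (p + (G.fK p').map φ) * c + (G.fK p').map φ ^ 2 * q3)) := by
    have h3 : (G.fK (f - C q * p' * b' - p' ^ 2 * c')).map φ =
        (G.fK f).map φ - C (φ (q : K)) * (G.fK p').map φ * (G.fK b').map φ -
          (G.fK p').map φ ^ 2 * (G.fK c').map φ := by
      simp only [Geo.fK, Polynomial.map_sub, Polynomial.map_mul, Polynomial.map_pow,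
        Polynomial.map_C]
      rfl
    have h4 : C L.pi = C (φ (q : K)) * C e' := by
      rw [← C_mul, ← h2]
    rw [h3, hf, h4]
    have e1 : (G.fK p').map φ = p - C (L.pi ^ 2) * q1 := by rw [hp']; ring
    have e2 : (G.fK b').map φ = C e' * b - C (L.pi ^ 2) * q2 := by rw [hb']; ring
    have e3 : (G.fK c').map φ = c - C (L.pi ^ 2) * q3 := by rw [hc']; ring
    rw [e2, e3, e1]
    ring
  have hcoef : Coef L.toLoc (a + C (φ (q : K)) * (q1 * (C e' * b) + (G.fK p').map φ * q2) +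
        (q1 * (p + (G.fK p').map φ) * c + (G.fK p').map φ ^ 2 * q3)) := by
    have c1 := coef_locA G w L p'
    refine RegA_add (RegA_add ha (RegA_mul (RegA_C (locK_mem L (RegA_mem G w q)))
      (RegA_add (RegA_mul hq1 (RegA_mul (RegA_C he') hb)) (RegA_mul c1 hq2))))
      (RegA_add (RegA_mul (RegA_mul hq1 (RegA_add hp c1)) hc) (RegA_mul ?_ hq3))
    rw [pow_two]
    exact RegA_mul c1 c1
  have hsq : f - C q * p' * b' - p' ^ 2 * c' ∈ (G.prime w).map (C : G.A →+* G.A[X]) ^ 2 := by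
    rw [← Ideal.map_pow, Ideal.mem_map_C_iff]
    intro i
    rw [mem_pow_iff w.1.ring (RegA_mem G w) (mem_primeA G w) hϖ, ← map_pow]
    have h4 := congrArg (fun q => coeff q i) key
    simp only [coeff_map, coeff_C_mul] at h4
    refine (locK_le L).1 ?_
    rw [map_pow, map_pow, locK_pi L hϖ, ← map_pow]
    refine (congrArg L.O.valuation h4).le.trans ?_
    rw [map_mul]
    exact mul_le_of_le_one_right' ((L.O.valuation_le_one_iff _).2 (hcoef i))
  refine hr p' hm.1 (by rw [hm.2]; exact hpd) ?_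
  have h5 : f = (f - C q * p' * b' - p' ^ 2 * c') + C q * p' * b' + p' ^ 2 * c' := by ring
  rw [h5]
  have hI1 : C q ∈ (G.prime w).map (C : G.A →+* G.A[X]) ⊔ Ideal.span {p'} :=
    Ideal.mem_sup_left (Ideal.mem_map_of_mem _ hq)
  have hI2 : p' ∈ (G.prime w).map (C : G.A →+* G.A[X]) ⊔ Ideal.span {p'} :=
    Ideal.mem_sup_right (Ideal.mem_span_singleton_self p')
  refine add_mem (add_mem (Ideal.pow_right_mono le_sup_left 2 hsq) ?_) ?_
  · rw [pow_two]
    exact Ideal.mul_mem_right _ _ (Ideal.mul_mem_mul hI1 hI2)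
  · exact Ideal.mul_mem_right _ _ (Ideal.pow_mem_pow hI2 2)

end Pool.Agent.GBC
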