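import Pool.Agent.Lib.GBC.G.RegA
import Pool.Agent.Lib.HYP.G.LocA
import Pool.Agent.Lib.HYP.G.LocB

/-!
Module G.TwA of GBC. Local images of the twist at the places where the twisting element is a unit, and at all
places.

ADAPTATION of `unitAt_twist` (`Pool/Agent/Lib/HYP/G/LocA.lean`) and `split_twist`
(`Pool/Agent/Lib/HYP/G/LocB.lean`): `locK_one` gives `V (toCompletion e) = 1`; `coef_locA`, `reg_locA`,
`coef_scale`, `reg_scale`, `map_scale`, `unitAt_of_image`, `unitAt_dn`, `dn_bc`; `natDegree` of
`f'.map _` is `2 g + 1`, odd. `unitAt_sq`: the private lemma `unitAt_of_isSquare` of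
`Pool/Agent/Lib/HYP/G/Twist.lean`.
-/

set_option autoImplicit false

open Polynomial

namespace Pool.Agent.GBC

open Pool.Agent.BSDP Pool.Agent.BSDFF Pool.Agent.HYP

theorem unitAt_sq {F : Type} [Field F] (L : Loc F) {f : F[X]} (c : AdjoinRoot f)
    (hc : IsUnit c) (hs : IsSquare c) : UnitAt L c := by
  obtain ⟨y, hy⟩ := hs
  have h1 : IntE L (1 : AdjoinRoot f) := by
    refine ⟨1, fun i => ?_, (map_one _).symm⟩
    rw [coeff_one]
    split_ifs
    · exact one_mem _
    · exact zero_mem _
  refine ⟨1, 1, y, h1, h1, one_mul 1, ?_, by rw [hy, one_mul, pow_two]⟩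
  rw [hy] at hc
  exact isUnit_of_mul_isUnit_left hc

variable {k K : Type} [Field k] [Field K] [Algebra k K]

theorem unitAt_twistA (G : Geo k K) (w : G.FP) (L : LocK w.1) {g : ℕ} {f : G.A[X]}
    (hf : f.Monic) (hn : f.natDegree = 2 * g + 1) (hr : RegI (G.prime w) f) {e : K}
    (he : w.1.ring.valuation e = 1) {f' : K[X]} (h : f' = (G.fK f).scaleRoots e)
    (c' : AdjoinRoot f')
    (hi : Image (f'.map w.1.toCompletion) g (bc w.1.toCompletion f' c')) :
    UnitAt L.toLoc (bc w.1.toCompletion (G.fK f) (dn e h c')) := by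
  have hm : (G.fK f).Monic := hf.map _
  have hm' : f'.Monic := by
    rw [h]
    exact (monic_scaleRoots_iff e).2 hm
  have h1 : L.toLoc.O.valuation (w.1.toCompletion e) = 1 := locK_one L he
  have hO : w.1.toCompletion e ∈ L.toLoc.O := (ValuationSubring.valuation_le_one_iff L.O _).1 h1.le
  rw [dn_bc hm w.1.toCompletion h c', unitAt_dn L.toLoc h1 (map_scale hm w.1.toCompletion h)]
  refine unitAt_of_image L.toLoc (hm'.map w.1.toCompletion) ?_ ?_ ?_ hi
  · exact coef_scale L.toLoc hO (map_scale hm w.1.toCompletion h) (coef_locA G w L f)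
  · rw [hm'.natDegree_map, h, natDegree_scaleRoots, hf.natDegree_map, hn]
    exact ⟨g, rfl⟩
  · exact reg_scale L.toLoc (hm.map w.1.toCompletion) h1
      (map_scale hm w.1.toCompletion h) (reg_locA G w L hr)

theorem split_twistA (h2 : (2 : k) ≠ 0) {g : ℕ} {F f' : K[X]} (hF : F.Monic)
    (hn : F.natDegree = 2 * g + 1) {e : K} (he : e ≠ 0) (h : f' = F.scaleRoots e)
    (c' : AdjoinRoot f') (w : Place k K)
    (hi : Image (f'.map w.toCompletion) g (bc w.toCompletion f' c')) :
    Split (hF.map w.toCompletion) g (bc w.toCompletion F (dn e h c')) := by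
  have hD2 : w.toCompletion e ≠ 0 := by
    intro h0
    exact he ((map_eq_zero _).1 h0)
  have h2' : (2 : w.ring.valuation.Completion) ≠ 0 := by
    intro h0
    apply h2
    have h3 : w.toCompletion (algebraMap k K (2 : k)) = 0 := by
      rw [map_ofNat, map_ofNat]
      exact h0
    have h4 := (map_eq_zero _).1 h3
    exact (map_eq_zero _).1 h4
  have hm' : f'.Monic := by
    rw [h]
    exact (monic_scaleRoots_iff e).2 hF
  have hn' : (f'.map w.toCompletion).natDegree = 2 * g + 1 := by
    rw [hm'.natDegree_map, h, natDegree_scaleRoots, hn]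
  rw [dn_bc hF w.toCompletion h c',
    split_dn (hF.map w.toCompletion) (hm'.map w.toCompletion) hD2 (map_scale hF w.toCompletion h)]
  exact split_of_image h2' (hm'.map w.toCompletion) hn' hi

end Pool.Agent.GBC
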