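import Pool.Agent.Lib.GBC.G.ModN
import Pool.Agent.Lib.GBC.G.ModInf
import Pool.Agent.Lib.GBC.G.DetB
import Pool.Agent.Lib.GBC.G.TwA
import Pool.Agent.Lib.HYP.G.Step

/-!
Module G.Step of GBC. One step of the reciprocity argument.

ADAPTATION of `step` in `Pool/Agent/Lib/HYP/G/Step.lean` (the lemmas `exists_std_basis`, `splitM_iff`,
`sqNorm_bc`, `isUnit_of_sqNorm` there are public). Suppose that `c = dn e h c'` is not a square at `w`.
`hL w` gives a complete `L : LocK w.1`; `eta_of_detA` gives `ξ`, `hh`, `H : RootAt`, `hE : EtaAt`; the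
twister has at `w` the value of a uniformizer (`Twister.one`, `locK_pi`). By `not_split_at` the form of
`c u` is not split at `w`. By `hR` (reciprocity, matrix `gram1 hm (c u) (std _ _)`, nondegenerate by
`gram1_det`) it is enough to show that it is split at all `v ≠ w.1`:
* `v` contains `A`, i.e. `v = w'.1` for `w' : G.FP`. `w' ∈ W`: `ho` (one of the two factors is a square; the
  other one is split: `u` is a unit up to squares by `hu.2 w' L'`, `split_of_unitAt` with `coef_locA`;
  `c` by `split_twistA`). `w' ∉ W` and `N ≤ prime w'`: `c u` has square norm, it is a square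
  (`isSquare_N`), `split_of_isSquare`. `w' ∉ W` and not `N ≤ prime w'`: `Twister.zero`, `unitAt_twistA`,
  `UnitAt.mul`, `split_of_unitAt`.
* `v` does not contain `A`: `isSquare_Inf`, `split_of_isSquare`.
Regularity at `prime w'`: `hf.reg _ (prime_maxA ..)`.
-/

set_option autoImplicit false

open Polynomial

namespace Pool.Agent.GBC

open Pool.Agent.BSDP Pool.Agent.BSDFF Pool.Agent.HYP

variable {k K : Type} [Field k] [Field K] [Algebra k K]

theorem stepA (hL : LocC k K) {g : ℕ} (hR : Rec k K g) (h2 : (2 : k) ≠ 0) (hg : 1 ≤ g)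
    {G : Geo k K} {D : Data G g} {m : ℕ} {f : G.A[X]} (hf : Fam D m f) (hm : (G.fK f).Monic)
    {W : Finset G.FP} {e : G.A} (he : Twister G D.N W e) {f' : K[X]}
    (h : f' = (G.fK f).scaleRoots (e : K)) (c' : AdjoinRoot f') (hn : SqNorm c')
    (hl : ∀ w : Place k K, Image (f'.map w.toCompletion) g (bc w.toCompletion f' c'))
    {w : G.FP} (hw : w ∈ W) (u : AdjoinRoot (G.fK f)) (hu : InU G u) (hd : DetG G g hm w u)
    (ho : ∀ w' ∈ W, w' ≠ w →
      IsSquare (bc w'.1.toCompletion (G.fK f) (dn (e : K) h c')) ∨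
      IsSquare (bc w'.1.toCompletion (G.fK f) u)) :
    IsSquare (bc w.1.toCompletion (G.fK f) (dn (e : K) h c')) := by
  classical
  have hKn : (G.fK f).natDegree = 2 * g + 1 := by rw [hf.monic.natDegree_map, hf.deg]
  have he0 : (e : K) ≠ 0 := fun h0 => he.ne (Subtype.ext h0)
  have hm' : f'.Monic := by
    rw [h]
    exact (monic_scaleRoots_iff _).2 hm
  have hcn : SqNorm (dn (e : K) h c') := (sqNorm_dn hm he0 h c').2 hn
  have hcu : IsUnit (dn (e : K) h c') := isUnit_of_sqNorm hm hcn
  have huu : IsUnit u := isUnit_of_sqNorm hm hu.1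
  have hreg : ∀ w' : G.FP, RegI (G.prime w') f := fun w' => hf.reg _ (prime_maxA G w')
  by_contra hns
  obtain ⟨L, hC⟩ := hL w.1
  obtain ⟨ξ, hh, H, hE⟩ := eta_of_detA G w L hg hf.monic hf.deg (hreg w) hm u hu.1 hd
  have hval : L.O.valuation (w.1.toCompletion (e : K)) = L.O.valuation L.pi := by
    obtain ⟨ϖ, hϖ, hv⟩ := he.one w hw
    rw [le_antisymm ((locK_le L).2 hv.le) ((locK_le L).2 hv.ge)]
    exact locK_pi L hϖ
  have key := not_split_at L.toLoc hC hg (hm.map w.1.toCompletion) H hval
    (map_scale hm w.1.toCompletion h)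
    (bc w.1.toCompletion _ c') (hl _) (sqNorm_bc hm' _ hn) ?_ _ hE
  · apply key
    rw [← dn_bc hm, ← map_mul, ← splitM_iff hm hKn]
    refine hR _ (gram1_symm hm _ _) ?_ w.1 ?_
    · rw [gram1_det hm hKn, coord_std hm hKn, Matrix.det_one, one_pow, mul_one]
      refine mul_ne_zero (pow_ne_zero _ (neg_ne_zero.2 one_ne_zero)) ?_
      exact ((isUnit_iff_norm hm _).1 (hcu.mul huu)).ne_zero
    · intro v hv
      rw [splitM_iff hm hKn, map_mul]
      have hvn : ((G.fK f).map v.toCompletion).natDegree = 2 * g + 1 := by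
        rw [hm.natDegree_map, hKn]
      have h2v : (2 : v.ring.valuation.Completion) ≠ 0 := by
        have : (2 : v.ring.valuation.Completion) = v.toCompletion (algebraMap k K 2) := by
          rw [map_ofNat, map_ofNat]
        rw [this]
        exact (_root_.map_ne_zero _).2 ((_root_.map_ne_zero _).2 h2)
      have hsn : ∀ v : Place k K, SqNorm (bc v.toCompletion (G.fK f) (dn (e : K) h c' * u)) := by
        intro v
        refine sqNorm_bc hm _ ?_
        obtain ⟨a, ha, ha'⟩ := hcn
        obtain ⟨b, hb, hb'⟩ := hu.1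
        exact ⟨a * b, mul_ne_zero ha hb, by rw [map_mul, ha', hb', mul_pow]⟩
      by_cases hvA : ∀ a ∈ G.A, a ∈ v.ring
      · obtain ⟨w', rfl⟩ : ∃ w' : G.FP, w'.1 = v := ⟨⟨v, hvA⟩, rfl⟩
        obtain ⟨L', hC'⟩ := hL w'.1
        have heU := hu.2 w' L'
        by_cases hW' : w' ∈ W
        · have hne : w' ≠ w := by
            rintro rfl
            exact hv rfl
          rcases ho w' hW' hne with h4 | h4
          · -- the twist class is a square
            obtain ⟨y, hy⟩ := h4
            have hyu : IsUnit y := by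
              have h5 := hcu.map (bc w'.1.toCompletion (G.fK f))
              rw [hy] at h5
              exact isUnit_of_mul_isUnit_left h5
            rw [hy, mul_comm, ← pow_two, split_mul_sq _ _ _ _ hyu]
            exact split_of_unitAt L'.toLoc (hm.map _) hvn (coef_locA G w' L' f) _ heU
          · obtain ⟨y, hy⟩ := h4
            have hyu : IsUnit y := by
              have h5 := huu.map (bc w'.1.toCompletion (G.fK f))
              rw [hy] at h5
              exact isUnit_of_mul_isUnit_left h5
            rw [hy, ← pow_two, split_mul_sq _ _ _ _ hyu]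
            exact split_twistA h2 hm hKn he0 h c' _ (hl _)
        · by_cases hN : D.N ≤ G.prime w'
          · rw [← map_mul]
            exact split_of_isSquare h2v (hm.map _) hvn _ (isUnit_of_sqNorm (hm.map _) (hsn _))
              (isSquare_N hf.toFam₀ w' hN L' hC' _ (hsn _))
          · have hcU := unitAt_twistA G w' L' hf.monic hf.deg (hreg w') (he.zero w' hW' hN) h c'
              (hl _)
            exact split_of_unitAt L'.toLoc (hm.map _) hvn (coef_locA G w' L' f) _ (hcU.mul heU)
      · obtain ⟨Li, hCi⟩ := hL v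
        rw [← map_mul]
        exact split_of_isSquare h2v (hm.map _) hvn _ (isUnit_of_sqNorm (hm.map _) (hsn _))
          (isSquare_Inf hf.toFam₀ v hvA Li hCi _ (hsn _))
  · intro h3
    apply hns
    rw [dn_bc hm]
    exact (isSquare_dn ((_root_.map_ne_zero _).2 he0) _ _).2 h3

end Pool.Agent.GBC
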