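import Pool.Agent.Lib.GBC.G.Step
import Pool.Agent.Lib.BSDP.T.Greedy

/-!
Module G.Twist of GBC. A polynomial of the family all of whose nontrivial classes are detected has a
quadratic twist with trivial `2`-Selmer group.

ADAPTATION of `twist` in `Pool/Agent/Lib/HYP/G/Twist.lean`. `greedy V (InU G) IsSquare (Dt) (Sq)` with
`Dt w c = InU G c ∧ DetG G g hm w c`, `Sq w c = IsSquare (bc w.1.toCompletion (G.fK f) c)` (`G.FP` has
decidable equality by `classical`); the second hypothesis of `greedy` by `eta_of_detA` for some `L` (`hL`) as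
there. `W` is the set of the places of the list; it does not depend on `e`. Let `e` be a `Twister` for `W`
and `c'` a Selmer element of `(G.fK f).scaleRoots e`, `c = dn e rfl c'`. By `stepA`, from the last to the first
element of the list, `c` is a square at all places of `W`. Then `InU G c`: `SqNorm` by `sqNorm_dn`; for
`w : G.FP` and `L : LocK w.1`: `w ∈ W`: a square, `unitAt_sq`; `w ∉ W` and `D.N ≤ prime w`: a square by
`isSquare_N` for a complete `L₀ : LocK w.1` (`hL w.1`), so `unitAt_sq` for `L`; otherwise
`unitAt_twistA` (`Twister.zero`). So `c` is a square (the last property of the list), and so is `c'`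
(`isSquare_dn`, `e ≠ 0` by `Twister.ne`).
-/

/-!
Module G.Twist of GBC. A polynomial of the family all of whose nontrivial classes are detected has a
quadratic twist with trivial `2`-Selmer group.

ADAPTATION of `twist` in `Pool/Agent/Lib/HYP/G/Twist.lean`. `greedy V (InU G) IsSquare (Dt) (Sq)` with
`Dt w c = InU G c ∧ DetG G g hm w c`, `Sq w c = IsSquare (bc w.1.toCompletion (G.fK f) c)` (`G.FP` has
decidable equality by `classical`); the second hypothesis of `greedy` by `eta_of_detA` for some `L` (`hL`) as
there. `W` is the set of the places of the list; it does not depend on `e`. Let `e` be a `Twister` for `W`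
and `c'` a Selmer element of `(G.fK f).scaleRoots e`, `c = dn e rfl c'`. By `stepA`, from the last to the first
element of the list, `c` is a square at all places of `W`. Then `InU G c`: `SqNorm` by `sqNorm_dn`; for
`w : G.FP` and `L : LocK w.1`: `w ∈ W`: a square, `unitAt_sq`; `w ∉ W` and `D.N ≤ prime w`: a square by
`isSquare_N` for a complete `L₀ : LocK w.1` (`hL w.1`), so `unitAt_sq` for `L`; otherwise
`unitAt_twistA` (`Twister.zero`). So `c` is a square (the last property of the list), and so is `c'`
(`isSquare_dn`, `e ≠ 0` by `Twister.ne`).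
-/

set_option autoImplicit false

open Polynomial

namespace Pool.Agent.GBC

open Pool.Agent.BSDP Pool.Agent.BSDFF Pool.Agent.HYP

variable {k K : Type} [Field k] [Field K] [Algebra k K]

theorem twist (hL : LocC k K) {g : ℕ} (hR : Rec k K g) (h2 : (2 : k) ≠ 0) (hg : 1 ≤ g)
    {G : Geo k K} {D : Data G g} {m : ℕ} {f : G.A[X]} (hf : Fam D m f) {V : Finset G.FP}
    (h : AllDet G g V f) :
    ∃ W ⊆ V, ∀ e : G.A, Twister G D.N W e → SelTriv k g ((G.fK f).scaleRoots (e : K)) := by
  classical
  have hm : (G.fK f).Monic := hf.monic.map _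
  obtain ⟨l, hl1, hl2, hl3, hl4⟩ := greedy V (fun c : AdjoinRoot (G.fK f) => InU G c)
    (fun c => IsSquare c)
    (fun w c => InU G c ∧ DetG G g hm w c)
    (fun w c => IsSquare (bc w.1.toCompletion (G.fK f) c))
    (by
      intro c hc hs
      obtain ⟨w, hwV, hd⟩ := h hm c hc hs
      exact ⟨w, hwV, hc, hd⟩)
    (by
      rintro w c - ⟨hc, hd⟩ hsq
      obtain ⟨L, -⟩ := hL w.1
      obtain ⟨ξ, hh, H, hE⟩ := eta_of_detA G w L hg hf.monic hf.deg
        (hf.reg _ (prime_maxA G w)) hm c hc.1 hd
      exact hE.ns (hsq.map _))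
  set W : Finset G.FP := (l.map Prod.fst).toFinset with hWdef
  have hWV : W ⊆ V := by
    intro w hw
    rw [hWdef, List.mem_toFinset, List.mem_map] at hw
    obtain ⟨p, hp, rfl⟩ := hw
    exact (hl2 p hp).1
  refine ⟨W, hWV, fun e he => ?_⟩
  intro c' hn hl
  have he0 : (e : K) ≠ 0 := by
    intro h0
    exact he.ne (Subtype.ext h0)
  have hcn : SqNorm (dn (f := G.fK f) (e : K) rfl c') := (sqNorm_dn hm he0 rfl c').2 hn
  have hcu : IsUnit (dn (f := G.fK f) (e : K) rfl c') := isUnit_of_sqNorm hm hcn
  -- squares at all places of the list, from the last one to the first one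
  have key : ∀ (l2 l1 : List (G.FP × AdjoinRoot (G.fK f))), l = l1 ++ l2 → ∀ p ∈ l2,
        IsSquare (bc p.1.1.toCompletion (G.fK f) (dn (f := G.fK f) (e : K) rfl c')) := by
    intro l2
    induction l2 with
    | nil =>
      intro l1 _ p hp
      exact absurd hp (List.not_mem_nil)
    | cons p l2 ih =>
      intro l1 hl12 q hq
      have ih' := ih (l1 ++ [p]) (by rw [hl12]; simp)
      rw [List.mem_cons] at hq
      rcases hq with rfl | hq
      · have hql : q ∈ l := by rw [hl12]; simp
        obtain ⟨hqV, hqU, -, hqd⟩ := hl2 q hql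
        refine stepA hL hR h2 hg hf hm he rfl c' hn hl ?_ q.2 hqU hqd ?_
        · rw [hWdef, List.mem_toFinset]
          exact List.mem_map_of_mem hql
        · intro w' hw'W hne
          rw [hWdef, List.mem_toFinset, List.mem_map] at hw'W
          obtain ⟨r, hr, rfl⟩ := hw'W
          rw [hl12, List.mem_append, List.mem_cons] at hr
          rcases hr with hr | rfl | hr
          · right
            rw [hl12, List.pairwise_append] at hl3
            exact hl3.2.2 r hr q (List.mem_cons_self)
          · exact absurd rfl hne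
          · left
            exact ih' r hr
      · exact ih' q hq
  have hall : ∀ p ∈ l,
      IsSquare (bc p.1.1.toCompletion (G.fK f) (dn (f := G.fK f) (e : K) rfl c')) := key l [] rfl
  have hU : InU G (dn (f := G.fK f) (e : K) rfl c') := by
    refine ⟨hcn, fun w L => ?_⟩
    by_cases hwW : w ∈ W
    · rw [hWdef, List.mem_toFinset, List.mem_map] at hwW
      obtain ⟨r, hr, rfl⟩ := hwW
      exact unitAt_sq L.toLoc _ (hcu.map _) (hall r hr)
    · by_cases hN : D.N ≤ G.prime w
      · obtain ⟨L₀, hC₀⟩ := hL w.1
        exact unitAt_sq L.toLoc _ (hcu.map _)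
          (isSquare_N hf.toFam₀ w hN L₀ hC₀ _ (sqNorm_bc hm _ hcn))
      · exact unitAt_twistA G w L hf.monic hf.deg (hf.reg _ (prime_maxA G w))
          (he.zero w hwW hN) rfl c' (hl w.1)
  have hfin : IsSquare (dn (f := G.fK f) (e : K) rfl c') := hl4 _ hU hall
  exact (isSquare_dn he0 rfl c').1 hfin

end Pool.Agent.GBC
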